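import Pool.Agent.Work.MP_bf6ff4_al.Grp

/-!
The group is nilpotent.
-/

namespace Pool.Agent.Systolic

namespace N10

/-- a descending central series -/
def ser (n : ℕ) : Subgroup N10 where
  carrier := {g | ∀ i, wt i ≤ n → g i = 0}
  one_mem' := fun i _ => one_apply i
  mul_mem' := by
    intro g h hg hh i hi
    have hg' : ∀ j, wt j ≤ wt i → g j = 0 := fun j hj => hg j (hj.trans hi)
    have hh' : ∀ j, wt j ≤ wt i → h j = 0 := fun j hj => hh j (hj.trans hi)
    clear hg hh hi
    fin_cases i
    · change (g * h) 0 = 0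
      simp [hg' 0 (by decide), hh' 0 (by decide)]
    · change (g * h) 1 = 0
      simp [hg' 1 (by decide), hh' 1 (by decide)]
    · change (g * h) 2 = 0
      simp [hg' 2 (by decide), hh' 2 (by decide)]
    · change (g * h) 3 = 0
      simp [hg' 3 (by decide), hh' 3 (by decide)]
    · change (g * h) 4 = 0
      simp [hg' 1 (by decide), hg' 4 (by decide), hh' 4 (by decide)]
    · change (g * h) 5 = 0
      simp [hg' 5 (by decide), hh' 5 (by decide)]
    · change (g * h) 6 = 0
      simp [hg' 0 (by decide), hg' 6 (by decide), hh' 6 (by decide)]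
    · change (g * h) 7 = 0
      simp [hg' 0 (by decide), hg' 7 (by decide), hh' 7 (by decide)]
    · change (g * h) 8 = 0
      simp [hg' 0 (by decide), hg' 8 (by decide), hh' 8 (by decide)]
    · change (g * h) 9 = 0
      simp [hg' 1 (by decide), hg' 0 (by decide), hg' 9 (by decide), hh' 9 (by decide)]
  inv_mem' := by
    intro g hg i hi
    have hg' : ∀ j, wt j ≤ wt i → g j = 0 := fun j hj => hg j (hj.trans hi)
    clear hg hi
    fin_cases i
    · change (g⁻¹) 0 = 0
      simp [hg' 0 (by decide)]
    · change (g⁻¹) 1 = 0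
      simp [hg' 1 (by decide)]
    · change (g⁻¹) 2 = 0
      simp [hg' 2 (by decide)]
    · change (g⁻¹) 3 = 0
      simp [hg' 3 (by decide)]
    · change (g⁻¹) 4 = 0
      simp [hg' 1 (by decide), hg' 4 (by decide)]
    · change (g⁻¹) 5 = 0
      simp [hg' 5 (by decide)]
    · change (g⁻¹) 6 = 0
      simp [hg' 0 (by decide), hg' 6 (by decide)]
    · change (g⁻¹) 7 = 0
      simp [hg' 0 (by decide), hg' 7 (by decide)]
    · change (g⁻¹) 8 = 0
      simp [hg' 0 (by decide), hg' 8 (by decide)]
    · change (g⁻¹) 9 = 0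
      simp [hg' 1 (by decide), hg' 0 (by decide), hg' 9 (by decide)]

lemma mem_ser {n : ℕ} {g : N10} : g ∈ ser n ↔ ∀ i, wt i ≤ n → g i = 0 := Iff.rfl

theorem isNilpotent : Group.IsNilpotent N10 := by
  rw [Subgroup.nilpotent_iff_finite_descending_central_series]
  refine ⟨5, ser, ⟨?_, ?_⟩, ?_⟩
  · ext g
    simp only [mem_ser, Subgroup.mem_top, iff_true]
    intro i hi
    fin_cases i <;> simp [wt] at hi
  · intro x n hx g
    rw [mem_ser] at hx ⊢
    intro i hi
    have hx' : ∀ j, wt j + 1 ≤ wt i → x j = 0 := fun j hj => hx j (by omega)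
    clear hx hi
    fin_cases i
    · change (x * g * x⁻¹ * g⁻¹) 0 = 0
      simp
    · change (x * g * x⁻¹ * g⁻¹) 1 = 0
      simp
    · change (x * g * x⁻¹ * g⁻¹) 2 = 0
      simp
    · change (x * g * x⁻¹ * g⁻¹) 3 = 0
      simp
    · change (x * g * x⁻¹ * g⁻¹) 4 = 0
      have h1 := hx' 1 (by decide)
      have h2 := hx' 2 (by decide)
      simp [h1, h2]
    · change (x * g * x⁻¹ * g⁻¹) 5 = 0
      simp
    · change (x * g * x⁻¹ * g⁻¹) 6 = 0
      have h0 := hx' 0 (by decide)
      have h5 := hx' 5 (by decide)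
      simp [h0, h5]
      ring
    · change (x * g * x⁻¹ * g⁻¹) 7 = 0
      have h0 := hx' 0 (by decide)
      have h5 := hx' 5 (by decide)
      have h6 := hx' 6 (by decide)
      simp [h0, h5, h6]
      ring
    · change (x * g * x⁻¹ * g⁻¹) 8 = 0
      have h0 := hx' 0 (by decide)
      have h5 := hx' 5 (by decide)
      have h6 := hx' 6 (by decide)
      have h7 := hx' 7 (by decide)
      simp [h0, h5, h6, h7]
      ring
    · change (x * g * x⁻¹ * g⁻¹) 9 = 0
      have h0 := hx' 0 (by decide)
      have h1 := hx' 1 (by decide)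
      have h3 := hx' 3 (by decide)
      have h5 := hx' 5 (by decide)
      have h6 := hx' 6 (by decide)
      have h7 := hx' 7 (by decide)
      have h8 := hx' 8 (by decide)
      simp [h0, h1, h3, h5, h6, h7, h8]
      ring
  · rw [eq_bot_iff]
    intro g hg
    rw [mem_ser] at hg
    rw [Subgroup.mem_bot]
    funext i
    rw [one_apply]
    refine hg i ?_
    fin_cases i <;> simp [wt]

end N10

end Pool.Agent.Systolic
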