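import Pool.Agent.Work.MP_bf6ff4_al.Lat

/-!
A family of automorphisms and the image lattices.
-/

open MeasureTheory Set
open scoped ENNReal

namespace Pool.Agent.Systolic

namespace N10

/-- parameters of an automorphism -/
structure Par where
  σ : ℝ
  τ : ℝ
  ε : ℝ
  α : ℝ
  l : ℝ
  θ : ℝ
  hσ : 0 < σ
  hτ : 0 < τ
  hε : 0 < ε
  hα : 0 < α
  hl : 0 < l
  rel : τ * α = l * σ ^ 4

/-- the underlying linear map -/
def Par.lin (p : Par) : V10 →ₗ[ℝ] V10 where
  toFun x := ![p.σ * x 0, p.τ * x 1, p.ε * x 2, p.α * x 3 + p.θ * x 2, p.τ * p.ε * x 4,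
    p.l * x 5, p.l * p.σ * x 6, p.l * p.σ ^ 2 * x 7, p.l * p.σ ^ 3 * x 8,
    p.l * p.σ ^ 4 * x 9 + p.τ * p.θ * x 4]
  map_add' x y := by
    funext i
    fin_cases i <;> simp <;> ring
  map_smul' c x := by
    funext i
    fin_cases i <;> simp <;> ring

lemma Par.det_lin (p : Par) : LinearMap.det p.lin =
    p.σ * p.τ * p.ε * p.α * (p.τ * p.ε) * p.l * (p.l * p.σ) * (p.l * p.σ ^ 2) *
      (p.l * p.σ ^ 3) * (p.l * p.σ ^ 4) := by
  rw [det_tri p.lin ![p.σ, p.τ, p.ε, p.α, p.τ * p.ε, p.l, p.l * p.σ, p.l * p.σ ^ 2,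
    p.l * p.σ ^ 3, p.l * p.σ ^ 4]]
  · simp [Fin.prod_univ_succ]
    ring
  · intro x i hx
    fin_cases i
    · simp [Par.lin]
    · simp [Par.lin]
    · simp [Par.lin]
    · have h2 := hx 2 (by decide)
      simp [Par.lin, h2]
    · simp [Par.lin]
    · simp [Par.lin]
    · simp [Par.lin]
    · simp [Par.lin]
    · simp [Par.lin]
    · have h4 := hx 4 (by decide)
      simp [Par.lin, h4]

lemma Par.det_pos (p : Par) : 0 < LinearMap.det p.lin := by
  rw [p.det_lin]
  have := p.hσ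
  have := p.hτ
  have := p.hε
  have := p.hα
  have := p.hl
  positivity

/-- the automorphism as a function -/
def Par.fn (p : Par) (x : N10) : N10 := p.lin x

section
variable (p : Par) (x : N10)
lemma fn_0 : p.fn x 0 = p.σ * x 0 := rfl
lemma fn_1 : p.fn x 1 = p.τ * x 1 := rfl
lemma fn_2 : p.fn x 2 = p.ε * x 2 := rfl
lemma fn_3 : p.fn x 3 = p.α * x 3 + p.θ * x 2 := rfl
lemma fn_4 : p.fn x 4 = p.τ * p.ε * x 4 := rfl
lemma fn_5 : p.fn x 5 = p.l * x 5 := rfl
lemma fn_6 : p.fn x 6 = p.l * p.σ * x 6 := rfl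
lemma fn_7 : p.fn x 7 = p.l * p.σ ^ 2 * x 7 := rfl
lemma fn_8 : p.fn x 8 = p.l * p.σ ^ 3 * x 8 := rfl
lemma fn_9 : p.fn x 9 = p.l * p.σ ^ 4 * x 9 + p.τ * p.θ * x 4 := rfl
end

/-- the parameters of the inverse -/
noncomputable def Par.inv (p : Par) : Par where
  σ := p.σ⁻¹
  τ := p.τ⁻¹
  ε := p.ε⁻¹
  α := p.α⁻¹
  l := p.l⁻¹
  θ := -p.θ / (p.α * p.ε)
  hσ := inv_pos.2 p.hσ
  hτ := inv_pos.2 p.hτ
  hε := inv_pos.2 p.hε
  hα := inv_pos.2 p.hα
  hl := inv_pos.2 p.hl
  rel := by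
    rw [← mul_inv, p.rel, mul_inv, inv_pow]

lemma fn_mul (p : Par) (x y : N10) : p.fn (x * y) = p.fn x * p.fn y := by
  refine ext10 ?_ ?_ ?_ ?_ ?_ ?_ ?_ ?_ ?_ ?_
  · simp only [fn_0, mul_0]; ring
  · simp only [fn_1, mul_1]; ring
  · simp only [fn_2, mul_2]; ring
  · simp only [fn_3, mul_2, mul_3]; ring
  · simp only [fn_4, fn_1, fn_2, mul_4]; ring
  · simp only [fn_5, mul_5]; ring
  · simp only [fn_0, fn_5, fn_6, mul_6]; ring
  · simp only [fn_0, fn_5, fn_6, fn_7, mul_7]; ring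
  · simp only [fn_0, fn_5, fn_6, fn_7, fn_8, mul_8]; ring
  · simp only [fn_0, fn_1, fn_3, fn_5, fn_6, fn_7, fn_8, fn_9, mul_9, mul_4]
    linear_combination (-(x 1) * y 3) * p.rel

lemma inv_fn_fn (p : Par) (x : N10) : p.inv.fn (p.fn x) = x := by
  have hσ := p.hσ.ne'
  have hτ := p.hτ.ne'
  have hε := p.hε.ne'
  have hα := p.hα.ne'
  have hl := p.hl.ne'
  have hrel := p.rel
  refine ext10 ?_ ?_ ?_ ?_ ?_ ?_ ?_ ?_ ?_ ?_
  · simp only [fn_0, Par.inv]; field_simp
  · simp only [fn_1, Par.inv]; field_simp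
  · simp only [fn_2, Par.inv]; field_simp
  · simp only [fn_3, fn_2, Par.inv]; field_simp; ring
  · simp only [fn_4, Par.inv]; field_simp
  · simp only [fn_5, Par.inv]; field_simp
  · simp only [fn_6, Par.inv]; field_simp
  · simp only [fn_7, Par.inv]; field_simp
  · simp only [fn_8, Par.inv]; field_simp
  · simp only [fn_9, fn_4, Par.inv]
    have h1 : p.l⁻¹ * p.σ⁻¹ ^ 4 = (p.τ * p.α)⁻¹ := by
      rw [hrel, mul_inv, inv_pow]
    rw [h1, ← hrel]
    field_simp
    ring

lemma fn_inv_fn (p : Par) (x : N10) : p.fn (p.inv.fn x) = x := by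
  have hσ := p.hσ.ne'
  have hτ := p.hτ.ne'
  have hε := p.hε.ne'
  have hα := p.hα.ne'
  have hl := p.hl.ne'
  have hrel := p.rel
  refine ext10 ?_ ?_ ?_ ?_ ?_ ?_ ?_ ?_ ?_ ?_
  · simp only [fn_0, Par.inv]; field_simp
  · simp only [fn_1, Par.inv]; field_simp
  · simp only [fn_2, Par.inv]; field_simp
  · simp only [fn_3, fn_2, Par.inv]; field_simp; ring
  · simp only [fn_4, Par.inv]; field_simp
  · simp only [fn_5, Par.inv]; field_simp
  · simp only [fn_6, Par.inv]; field_simp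
  · simp only [fn_7, Par.inv]; field_simp
  · simp only [fn_8, Par.inv]; field_simp
  · simp only [fn_9, fn_4, Par.inv]
    have h1 : p.l⁻¹ * p.σ⁻¹ ^ 4 = (p.τ * p.α)⁻¹ := by
      rw [hrel, mul_inv, inv_pow]
    rw [h1, ← hrel]
    field_simp
    ring

/-- the automorphism -/
noncomputable def Par.aut (p : Par) : N10 ≃* N10 where
  toFun := p.fn
  invFun := p.inv.fn
  left_inv := inv_fn_fn p
  right_inv := fn_inv_fn p
  map_mul' := fn_mul p

lemma continuous_fn (p : Par) : Continuous p.fn :=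
  LinearMap.continuous_of_finiteDimensional p.lin

/-- the image of the integer lattice -/
noncomputable def Par.lat (p : Par) : Subgroup N10 := Gam.map p.aut.toMonoidHom

lemma mem_lat {p : Par} {x : N10} : x ∈ p.lat ↔ ∃ g ∈ Gam, p.fn g = x := Iff.rfl

/-- the fundamental domain -/
def Par.dom (p : Par) : Set N10 := p.fn '' box fun _ => 1

lemma dom_eq (p : Par) : p.dom = p.inv.fn ⁻¹' (box fun _ => 1) :=
  congrFun (Set.image_eq_preimage_of_inverse (inv_fn_fn p) (fn_inv_fn p)) _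

lemma measurableSet_dom (p : Par) : MeasurableSet p.dom := by
  rw [dom_eq]
  exact (continuous_fn p.inv).measurable (measurableSet_box _)

lemma volume_dom (p : Par) : (volume : Measure N10) p.dom = ENNReal.ofReal (LinearMap.det p.lin) := by
  have h1 := Measure.addHaar_image_linearMap (volume : Measure V10) p.lin (box fun _ => 1)
  have h2 : (volume : Measure V10) (box fun _ => (1 : ℝ)) = 1 := by
    have := volume_box (b := fun _ => (1 : ℝ)) (fun _ => zero_le_one)
    rw [Finset.prod_const_one, ENNReal.ofReal_one] at this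
    exact this
  rw [h2, mul_one, abs_of_pos p.det_pos] at h1
  exact h1

lemma dom_existsUnique (p : Par) (x : N10) : ∃! l : p.lat, l • x ∈ p.dom := by
  obtain ⟨g, hg, hgb⟩ := Gam_box_exists (p.inv.fn x)
  refine ⟨⟨p.fn g, g, hg, rfl⟩, ?_, ?_⟩
  · change p.fn g * x ∈ p.dom
    refine ⟨g * p.inv.fn x, hgb, ?_⟩
    rw [fn_mul, fn_inv_fn]
  · rintro ⟨l, g', hg', rfl⟩ hl
    change p.fn g' * x ∈ p.dom at hl
    rw [dom_eq, Set.mem_preimage, fn_mul, inv_fn_fn] at hl
    have h1 : g' * g⁻¹ = 1 := by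
      refine Gam_box_unique (Gam.mul_mem hg' (Gam.inv_mem hg)) hgb ?_
      rw [mul_assoc, inv_mul_cancel_left]
      exact hl
    have h2 : g' = g := by rw [mul_inv_eq_one] at h1; exact h1
    exact Subtype.ext (congrArg p.fn h2)

lemma isFundamentalDomain (p : Par) (μ : Measure N10) : IsFundamentalDomain p.lat p.dom μ :=
  IsFundamentalDomain.mk' (measurableSet_dom p).nullMeasurableSet (dom_existsUnique p)

lemma discrete_of_box (Λ : Subgroup N10) (U : Set N10) (hU : IsOpen U) (h1 : (1 : N10) ∈ U)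
    (h : ∀ x ∈ Λ, x ∈ U → x = 1) : DiscreteTopology Λ := by
  apply discreteTopology_of_isOpen_singleton_one
  have h2 : ({1} : Set Λ) = Subtype.val ⁻¹' U := by
    ext x
    simp only [Set.mem_singleton_iff, Set.mem_preimage]
    constructor
    · rintro rfl
      exact h1
    · intro hx
      exact Subtype.ext (h x.1 x.2 hx)
  rw [h2]
  exact hU.preimage continuous_subtype_val

lemma isOpen_unit : IsOpen {x : N10 | ∀ i, |x i| < 1} := by
  have h1 : {x : N10 | ∀ i, |x i| < 1} = ⋂ i, {x : N10 | |x i| < 1} := by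
    ext x
    simp
  rw [h1]
  refine isOpen_iInter_of_finite fun i => ?_
  have h2' : Continuous fun x : V10 => x i := continuous_apply i
  have h2 : Continuous fun x : N10 => x i := h2'
  exact isOpen_lt h2.abs continuous_const

lemma discrete_lat (p : Par) : DiscreteTopology p.lat := by
  refine discrete_of_box p.lat (p.inv.fn ⁻¹' {x : N10 | ∀ i, |x i| < 1})
    (isOpen_unit.preimage (continuous_fn _)) ?_ ?_
  · have h1 : p.inv.fn 1 = 1 := map_one p.inv.aut
    rw [Set.mem_preimage, h1]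
    intro i
    simp
  · rintro x ⟨g, hg, rfl⟩ hx
    have hx' : ∀ i, |p.inv.fn (p.fn g) i| < 1 := hx
    rw [inv_fn_fn] at hx'
    have h1 : g = 1 := by
      funext i
      exact ZR_eq_zero (hg i) (hx' i)
    rw [h1]
    exact map_one p.aut

lemma discrete_Gam : DiscreteTopology Gam := by
  refine discrete_of_box Gam {x : N10 | ∀ i, |x i| < 1} isOpen_unit ?_ ?_
  · intro i
    simp
  · intro x hx hx'
    funext i
    exact ZR_eq_zero (hx i) (hx' i)

instance countable_of_discrete (Λ : Subgroup N10) [DiscreteTopology Λ] : Countable Λ :=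
  countable_of_Lindelof_of_discrete

lemma isLattice_lat (p : Par) (μ : Measure N10) [μ.IsHaarMeasure] : IsLattice μ p.lat := by
  refine ⟨discrete_lat p, p.dom, isFundamentalDomain p μ, ?_⟩
  obtain ⟨c, _, hc, rfl⟩ := haar_eq μ
  rw [Measure.smul_apply, volume_dom, smul_eq_mul]
  exact ENNReal.mul_lt_top hc.lt_top ENNReal.ofReal_lt_top

lemma covolume_lat (p : Par) (μ : Measure N10) [μ.IsHaarMeasure] :
    covolume p.lat N10 μ = μ p.dom := by
  have := discrete_lat p
  exact (isFundamentalDomain p μ).covolume_eq_volume μ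

end N10

end Pool.Agent.Systolic
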