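import Pool.Agent.Work.MP_bf6ff4_al.Defs

/-!
Words in a generating set; compact generating sets are comparable.
-/

open Set
open scoped Pointwise

namespace Pool.Agent.Systolic

variable {G : Type} [Group G] {S : Set G}

/-- some word of length at most `n` represents `g` -/
def W (S : Set G) (n : ℕ) (g : G) : Prop :=
  ∃ l : List G, l.length ≤ n ∧ (∀ x ∈ l, x ∈ S ∨ x⁻¹ ∈ S) ∧ l.prod = g

lemma W.one (n : ℕ) : W S n 1 := ⟨[], by simp, by simp, by simp⟩

lemma W.mono {m n : ℕ} {g : G} (h : W S m g) (hmn : m ≤ n) : W S n g := by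
  obtain ⟨l, h1, h2, h3⟩ := h
  exact ⟨l, h1.trans hmn, h2, h3⟩

lemma W.of_mem {g : G} (h : g ∈ S ∨ g⁻¹ ∈ S) : W S 1 g :=
  ⟨[g], by simp, by simpa using h, by simp⟩

lemma W.mul {m n : ℕ} {g h : G} (hg : W S m g) (hh : W S n h) : W S (m + n) (g * h) := by
  obtain ⟨l, h1, h2, h3⟩ := hg
  obtain ⟨l', h1', h2', h3'⟩ := hh
  refine ⟨l ++ l', ?_, ?_, ?_⟩
  · rw [List.length_append]
    omega
  · intro x hx
    rcases List.mem_append.1 hx with hx | hx
    · exact h2 x hx
    · exact h2' x hx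
  · rw [List.prod_append, h3, h3']

lemma W.inv {n : ℕ} {g : G} (hg : W S n g) : W S n g⁻¹ := by
  obtain ⟨l, h1, h2, h3⟩ := hg
  refine ⟨(l.map (fun x => x⁻¹)).reverse, ?_, ?_, ?_⟩
  · simpa using h1
  · intro x hx
    rw [List.mem_reverse, List.mem_map] at hx
    obtain ⟨y, hy, rfl⟩ := hx
    rw [inv_inv]
    exact (h2 y hy).symm
  · rw [← h3, List.prod_inv_reverse]

lemma W.pow {n : ℕ} {g : G} (hg : W S n g) (k : ℕ) : W S (k * n) (g ^ k) := by
  induction k with
  | zero => simpa using W.one 0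
  | succ k ih =>
    rw [pow_succ, Nat.succ_mul]
    exact ih.mul hg

lemma exists_W (hS : Subgroup.closure S = ⊤) (g : G) : ∃ n, W S n g := by
  have hg : g ∈ Subgroup.closure S := by rw [hS]; exact Subgroup.mem_top g
  induction hg using Subgroup.closure_induction with
  | mem x hx => exact ⟨1, W.of_mem (Or.inl hx)⟩
  | one => exact ⟨0, W.one 0⟩
  | mul x y _ _ hx hy =>
    obtain ⟨m, hm⟩ := hx
    obtain ⟨n, hn⟩ := hy
    exact ⟨m + n, hm.mul hn⟩
  | inv x _ hx =>
    obtain ⟨m, hm⟩ := hx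
    exact ⟨m, hm.inv⟩

lemma wordLength_le {n : ℕ} {g : G} (h : W S n g) : wordLength S g ≤ n := by
  obtain ⟨l, h1, h2, h3⟩ := h
  have h4 : wordLength S g ≤ l.length := Nat.sInf_le ⟨l, rfl, h2, h3⟩
  exact h4.trans h1

lemma exists_list (hS : Subgroup.closure S = ⊤) (g : G) :
    ∃ l : List G, l.length = wordLength S g ∧ (∀ x ∈ l, x ∈ S ∨ x⁻¹ ∈ S) ∧ l.prod = g := by
  have hne : {n : ℕ | ∃ l : List G, l.length = n ∧ (∀ x ∈ l, x ∈ S ∨ x⁻¹ ∈ S) ∧
      l.prod = g}.Nonempty := by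
    obtain ⟨n, l, h1, h2, h3⟩ := exists_W hS g
    exact ⟨l.length, l, rfl, h2, h3⟩
  exact Nat.sInf_mem hne

lemma list_prod_mem_pow {T : Set G} (l : List G) (h : ∀ x ∈ l, x ∈ T) :
    l.prod ∈ T ^ l.length := by
  induction l with
  | nil => simp
  | cons x l ih =>
    rw [List.prod_cons, List.length_cons, pow_succ']
    exact Set.mul_mem_mul (h x (by simp)) (ih fun y hy => h y (by simp [hy]))

lemma isCompact_pow' [TopologicalSpace G] [IsTopologicalGroup G] {T : Set G} (hT : IsCompact T)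
    (n : ℕ) : IsCompact (T ^ n) := by
  induction n with
  | zero => simp
  | succ n ih =>
    rw [pow_succ]
    exact ih.mul hT

lemma exists_W_compact [TopologicalSpace G] [IsTopologicalGroup G] [T2Space G]
    [LocallyCompactSpace G] (hS : IsCompact S) (hgen : Subgroup.closure S = ⊤) {K : Set G}
    (hK : IsCompact K) : ∃ k, ∀ g ∈ K, W S k g := by
  set T : Set G := S ∪ S⁻¹ ∪ {1} with hT
  have hTc : IsCompact T := (hS.union hS.inv).union isCompact_singleton
  have hT1 : (1 : G) ∈ T := by rw [hT]; right; rfl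
  have hTW : ∀ n, ∀ g ∈ T ^ n, W S n g := by
    intro n
    induction n with
    | zero =>
      intro g hg
      rw [pow_zero, Set.mem_one] at hg
      rw [hg]
      exact W.one 0
    | succ n ih =>
      intro g hg
      rw [pow_succ] at hg
      obtain ⟨a, ha, b, hb, rfl⟩ := Set.mem_mul.1 hg
      refine (ih a ha).mul ?_
      rcases hb with (hb | hb) | hb
      · exact W.of_mem (Or.inl hb)
      · exact W.of_mem (Or.inr hb)
      · rw [Set.mem_singleton_iff.1 hb]
        exact W.one 1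
  have hmem : ∀ g : G, ∃ n, g ∈ T ^ n := by
    intro g
    obtain ⟨n, l, h1, h2, h3⟩ := exists_W hgen g
    refine ⟨l.length, ?_⟩
    rw [← h3]
    refine list_prod_mem_pow l fun x hx => ?_
    rcases h2 x hx with h | h
    · exact Or.inl (Or.inl h)
    · exact Or.inl (Or.inr h)
  have hcov : ⋃ n, T ^ n = univ := by
    rw [Set.eq_univ_iff_forall]
    intro g
    obtain ⟨n, hn⟩ := hmem g
    exact Set.mem_iUnion.2 ⟨n, hn⟩
  obtain ⟨n, x, hx⟩ := nonempty_interior_of_iUnion_of_closed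
    (fun n => (isCompact_pow' hTc n).isClosed) hcov
  have hmono : ∀ m m' : ℕ, m ≤ m' → T ^ m ⊆ T ^ m' := fun m m' h =>
    Set.pow_subset_pow_right hT1 h
  obtain ⟨m, hm⟩ := hK.elim_directed_cover (fun m : ℕ => T ^ m * interior (T ^ n))
    (fun m => isOpen_interior.mul_left) (fun y _ => by
      obtain ⟨m, hm⟩ := hmem (y * x⁻¹)
      refine Set.mem_iUnion.2 ⟨m, Set.mem_mul.2 ⟨y * x⁻¹, hm, x, hx, ?_⟩⟩
      rw [inv_mul_cancel_right])
    (fun i j => ⟨max i j, Set.mul_subset_mul_right (hmono _ _ (le_max_left _ _)),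
      Set.mul_subset_mul_right (hmono _ _ (le_max_right _ _))⟩)
  refine ⟨m + n, fun g hg => ?_⟩
  obtain ⟨a, ha, b, hb, rfl⟩ := Set.mem_mul.1 (hm hg)
  exact (hTW m a ha).mul (hTW n b (interior_subset hb))

end Pool.Agent.Systolic
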