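import Pool.Agent.Work.MP_bf6ff4_al.Meas
import Pool.Agent.Work.MP_bf6ff4_al.Words

/-!
Lower bound for word lengths in the group.
-/

open Set

namespace Pool.Agent.Systolic

namespace N10

lemma exists_bound {T : Set N10} (hT : IsCompact T) :
    ∃ K : ℝ, 1 ≤ K ∧ ∀ x ∈ T, ∀ i, |x i| ≤ K := by
  obtain ⟨C, hC⟩ := hT.exists_bound_of_continuousOn (f := fun x : N10 => toV x)
    (continuous_id.continuousOn)
  refine ⟨max 1 C, le_max_left _ _, fun x hx i => ?_⟩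
  have h1 : ‖toV x i‖ ≤ ‖toV x‖ := norm_le_pi_norm (toV x) i
  exact (h1.trans (hC x hx)).trans (le_max_right _ _)

/-- the bounds satisfied by products of `n` elements -/
structure Bds (K : ℝ) (n : ℝ) (g : N10) : Prop where
  b0 : |g 0| ≤ K * n
  b1 : |g 1| ≤ K * n
  b2 : |g 2| ≤ K * n
  b3 : |g 3| ≤ K * n
  b4 : |g 4| ≤ 12 * K ^ 5 * n ^ 2
  b5 : |g 5| ≤ K * n
  b6 : |g 6| ≤ 12 * K ^ 5 * n ^ 2
  b7 : |g 7| ≤ 12 * K ^ 5 * n ^ 3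
  b8 : |g 8| ≤ 12 * K ^ 5 * n ^ 4
  b9 : |g 9| ≤ 12 * K ^ 5 * n ^ 5

lemma Bds.step {K n : ℝ} (hK : 1 ≤ K) (hn : 0 ≤ n) {g h : N10} (hg : Bds K n g)
    (hh : ∀ i, |h i| ≤ K) : Bds K (n + 1) (g * h) := by
  obtain ⟨b0, b1, b2, b3, b4, b5, b6, b7, b8, b9⟩ := hg
  have hK0 : 0 ≤ K := zero_le_one.trans hK
  have k1 : K ≤ K ^ 5 := le_self_pow₀ hK (by norm_num)
  have k2 : K ^ 2 ≤ K ^ 5 := pow_le_pow_right₀ hK (by norm_num)
  have k3 : K ^ 3 ≤ K ^ 5 := pow_le_pow_right₀ hK (by norm_num)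
  have k4 : K ^ 4 ≤ K ^ 5 := pow_le_pow_right₀ hK (by norm_num)
  have p1 : 0 ≤ K ^ 5 * n := by positivity
  have p2 : 0 ≤ K ^ 5 * n ^ 2 := by positivity
  have p3 : 0 ≤ K ^ 5 * n ^ 3 := by positivity
  have p4 : 0 ≤ K ^ 5 * n ^ 4 := by positivity
  have p0 : 0 ≤ K ^ 5 := by positivity
  have q1 : K ^ 2 * n ≤ K ^ 5 * n := by gcongr
  have q2 : K ^ 3 * n ^ 2 ≤ K ^ 5 * n ^ 2 := by gcongr
  have q3 : K ^ 4 * n ^ 3 ≤ K ^ 5 * n ^ 3 := by gcongr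
  have h2 := hh 2
  have h3 := hh 3
  have h4 := hh 4
  have h5 := hh 5
  have h6 := hh 6
  have h7 := hh 7
  have h8 := hh 8
  have h9 := hh 9
  have lin : ∀ i, |g i| ≤ K * n → |g i + h i| ≤ K * (n + 1) := by
    intro i hi
    have := abs_add_le (g i) (h i)
    have := hh i
    nlinarith
  refine ⟨?_, ?_, ?_, ?_, ?_, ?_, ?_, ?_, ?_, ?_⟩
  · exact lin 0 b0
  · exact lin 1 b1
  · exact lin 2 b2
  · exact lin 3 b3
  · rw [mul_4]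
    have e1 := abs_add_le (g 4 + h 4) (g 1 * h 2)
    have e2 := abs_add_le (g 4) (h 4)
    have e3 : |g 1 * h 2| ≤ (K * n) * K := by rw [abs_mul]; gcongr
    have e4 : (12 * K ^ 5) * (n + 1) ^ 2 = 12 * (K ^ 5 * n ^ 2) + 24 * (K ^ 5 * n) + 12 * K ^ 5 := by
      ring
    have e5 : (K * n) * K = K ^ 2 * n := by ring
    rw [e4]
    linarith
  · exact lin 5 b5
  · rw [mul_6]
    have e1 := abs_add_le (g 6) (h 6 + 4 * g 0 * h 5)
    have e2 := abs_add_le (h 6) (4 * g 0 * h 5)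
    have e3 : |4 * g 0 * h 5| ≤ 4 * (K * n) * K := by
      rw [abs_mul, abs_mul, abs_of_pos (by norm_num : (0:ℝ) < 4)]; gcongr
    have e4 : (12 * K ^ 5) * (n + 1) ^ 2 = 12 * (K ^ 5 * n ^ 2) + 24 * (K ^ 5 * n) + 12 * K ^ 5 := by
      ring
    have e5 : 4 * (K * n) * K = 4 * (K ^ 2 * n) := by ring
    rw [e4]
    linarith
  · rw [mul_7]
    have e1 := abs_add_le (g 7) (h 7 + 3 * g 0 * h 6 + 6 * g 0 ^ 2 * h 5)
    have e2 := abs_add_le (h 7 + 3 * g 0 * h 6) (6 * g 0 ^ 2 * h 5)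
    have e3 := abs_add_le (h 7) (3 * g 0 * h 6)
    have f1 : |3 * g 0 * h 6| ≤ 3 * (K * n) * K := by
      rw [abs_mul, abs_mul, abs_of_pos (by norm_num : (0:ℝ) < 3)]; gcongr
    have f2 : |6 * g 0 ^ 2 * h 5| ≤ 6 * (K * n) ^ 2 * K := by
      rw [abs_mul, abs_mul, abs_of_pos (by norm_num : (0:ℝ) < 6), abs_pow]; gcongr
    have e4 : (12 * K ^ 5) * (n + 1) ^ 3 = 12 * (K ^ 5 * n ^ 3) + 36 * (K ^ 5 * n ^ 2) +
      36 * (K ^ 5 * n) + 12 * K ^ 5 := by ring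
    have e5 : 3 * (K * n) * K = 3 * (K ^ 2 * n) := by ring
    have e6 : 6 * (K * n) ^ 2 * K = 6 * (K ^ 3 * n ^ 2) := by ring
    rw [e4]
    linarith
  · rw [mul_8]
    have e1 := abs_add_le (g 8) (h 8 + 2 * g 0 * h 7 + 3 * g 0 ^ 2 * h 6 + 4 * g 0 ^ 3 * h 5)
    have e2 := abs_add_le (h 8 + 2 * g 0 * h 7 + 3 * g 0 ^ 2 * h 6) (4 * g 0 ^ 3 * h 5)
    have e3 := abs_add_le (h 8 + 2 * g 0 * h 7) (3 * g 0 ^ 2 * h 6)
    have e3' := abs_add_le (h 8) (2 * g 0 * h 7)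
    have f1 : |2 * g 0 * h 7| ≤ 2 * (K * n) * K := by
      rw [abs_mul, abs_mul, abs_of_pos (by norm_num : (0:ℝ) < 2)]; gcongr
    have f2 : |3 * g 0 ^ 2 * h 6| ≤ 3 * (K * n) ^ 2 * K := by
      rw [abs_mul, abs_mul, abs_of_pos (by norm_num : (0:ℝ) < 3), abs_pow]; gcongr
    have f3 : |4 * g 0 ^ 3 * h 5| ≤ 4 * (K * n) ^ 3 * K := by
      rw [abs_mul, abs_mul, abs_of_pos (by norm_num : (0:ℝ) < 4), abs_pow]; gcongr
    have e4 : (12 * K ^ 5) * (n + 1) ^ 4 = 12 * (K ^ 5 * n ^ 4) + 48 * (K ^ 5 * n ^ 3) +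
      72 * (K ^ 5 * n ^ 2) + 48 * (K ^ 5 * n) + 12 * K ^ 5 := by ring
    have e5 : 2 * (K * n) * K = 2 * (K ^ 2 * n) := by ring
    have e6 : 3 * (K * n) ^ 2 * K = 3 * (K ^ 3 * n ^ 2) := by ring
    have e7 : 4 * (K * n) ^ 3 * K = 4 * (K ^ 4 * n ^ 3) := by ring
    rw [e4]
    linarith
  · rw [mul_9]
    have e0 := abs_add_le (g 9 + (h 9 + g 0 * h 8 + g 0 ^ 2 * h 7 + g 0 ^ 3 * h 6 +
      g 0 ^ 4 * h 5)) (g 1 * h 3)
    have e1 := abs_add_le (g 9) (h 9 + g 0 * h 8 + g 0 ^ 2 * h 7 + g 0 ^ 3 * h 6 + g 0 ^ 4 * h 5)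
    have e2 := abs_add_le (h 9 + g 0 * h 8 + g 0 ^ 2 * h 7 + g 0 ^ 3 * h 6) (g 0 ^ 4 * h 5)
    have e3 := abs_add_le (h 9 + g 0 * h 8 + g 0 ^ 2 * h 7) (g 0 ^ 3 * h 6)
    have e3' := abs_add_le (h 9 + g 0 * h 8) (g 0 ^ 2 * h 7)
    have e3'' := abs_add_le (h 9) (g 0 * h 8)
    have f0 : |g 1 * h 3| ≤ (K * n) * K := by rw [abs_mul]; gcongr
    have f1 : |g 0 * h 8| ≤ (K * n) * K := by rw [abs_mul]; gcongr
    have f2 : |g 0 ^ 2 * h 7| ≤ (K * n) ^ 2 * K := by rw [abs_mul, abs_pow]; gcongr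
    have f3 : |g 0 ^ 3 * h 6| ≤ (K * n) ^ 3 * K := by rw [abs_mul, abs_pow]; gcongr
    have f4 : |g 0 ^ 4 * h 5| ≤ (K * n) ^ 4 * K := by rw [abs_mul, abs_pow]; gcongr
    have e4 : (12 * K ^ 5) * (n + 1) ^ 5 = 12 * (K ^ 5 * n ^ 5) + 60 * (K ^ 5 * n ^ 4) +
      120 * (K ^ 5 * n ^ 3) + 120 * (K ^ 5 * n ^ 2) + 60 * (K ^ 5 * n) + 12 * K ^ 5 := by ring
    have e5 : (K * n) * K = K ^ 2 * n := by ring
    have e6 : (K * n) ^ 2 * K = K ^ 3 * n ^ 2 := by ring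
    have e7 : (K * n) ^ 3 * K = K ^ 4 * n ^ 3 := by ring
    have e8 : (K * n) ^ 4 * K = K ^ 5 * n ^ 4 := by ring
    rw [e4]
    linarith

lemma bds_list {K : ℝ} (hK : 1 ≤ K) (l : List N10) (hl : ∀ x ∈ l, ∀ i, |x i| ≤ K) :
    Bds K (l.length : ℝ) l.prod := by
  induction l using List.reverseRecOn with
  | nil =>
    refine ⟨?_, ?_, ?_, ?_, ?_, ?_, ?_, ?_, ?_, ?_⟩ <;> simp
  | append_singleton l a ih =>
    rw [List.prod_append, List.prod_singleton, List.length_append, List.length_singleton]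
    push_cast
    exact (ih fun x hx => hl x (by simp [hx])).step hK (by positivity) (hl a (by simp))

lemma Bds.all {K n : ℝ} (hK : 1 ≤ K) (hn : 0 ≤ n) {g : N10} (hg : Bds K n g) (i : Fin 10) :
    |g i| ≤ 12 * K ^ 5 * n ^ wt i := by
  obtain ⟨b0, b1, b2, b3, b4, b5, b6, b7, b8, b9⟩ := hg
  have k1 : K ≤ K ^ 5 := le_self_pow₀ hK (by norm_num)
  have k2 : K * n ≤ 12 * K ^ 5 * n ^ 1 := by
    rw [pow_one]
    have : K * n ≤ K ^ 5 * n := by gcongr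
    have : 0 ≤ K ^ 5 * n := by positivity
    linarith
  fin_cases i
  · exact b0.trans k2
  · exact b1.trans k2
  · exact b2.trans k2
  · exact b3.trans k2
  · exact b4
  · exact b5.trans k2
  · exact b6
  · exact b7
  · exact b8
  · exact b9

theorem wordLength_lower {S : Set N10} (hS : IsCompact S) (hgen : Subgroup.closure S = ⊤) :
    ∃ M : ℝ, 1 ≤ M ∧ ∀ (g : N10) (ρ : ℝ), 0 ≤ ρ → (∃ i, ρ ^ wt i ≤ |g i|) →
      ρ ≤ M * wordLength S g := by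
  obtain ⟨K, hK, hKb⟩ := exists_bound (hS.union hS.inv)
  have hM : (1 : ℝ) ≤ 12 * K ^ 5 := by
    have : (1 : ℝ) ≤ K ^ 5 := one_le_pow₀ hK
    linarith
  refine ⟨12 * K ^ 5, hM, fun g ρ hρ hex => ?_⟩
  obtain ⟨i, hi⟩ := hex
  obtain ⟨l, h1, h2, h3⟩ := exists_list hgen g
  have hb := (bds_list hK l fun x hx j => by
    refine hKb x ?_ j
    rcases h2 x hx with h | h
    · exact Or.inl h
    · exact Or.inr h).all hK (by positivity) i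
  rw [h3, h1] at hb
  set n : ℝ := (wordLength S g : ℝ) with hn
  have hn0 : 0 ≤ n := by positivity
  have hw : wt i ≠ 0 := by
    fin_cases i <;> simp [wt]
  by_contra hcon
  push Not at hcon
  have h4 : (12 * K ^ 5 * n) ^ wt i < ρ ^ wt i := pow_lt_pow_left₀ hcon (by positivity) hw
  have h5 : 12 * K ^ 5 * n ^ wt i ≤ (12 * K ^ 5 * n) ^ wt i := by
    rw [mul_pow]
    gcongr
    exact le_self_pow₀ hM hw
  linarith

end N10

end Pool.Agent.Systolic
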