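import Pool.Agent.Work.MP_bf6ff4_al.Meas
import Pool.Agent.Work.MP_bf6ff4_al.Words

/-!
Upper bound for word lengths of elements with vanishing first four coordinates.
-/

open Set

set_option linter.unusedSimpArgs false

namespace Pool.Agent.Systolic

namespace N10

/-- one-parameter elements -/
def X (i : Fin 10) (y : ℝ) : N10 := fun j => if j = i then y else 0

lemma X_zero (i : Fin 10) : X i 0 = 1 := by
  funext j
  simp [X]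

lemma X_add {i : Fin 10} (hi : i = 0 ∨ i = 1 ∨ i = 2 ∨ i = 5) (y z : ℝ) :
    X i (y + z) = X i y * X i z := by
  rcases hi with rfl | rfl | rfl | rfl <;>
    refine ext10 ?_ ?_ ?_ ?_ ?_ ?_ ?_ ?_ ?_ ?_ <;> simp [X]

lemma X_nat_mul {i : Fin 10} (hi : i = 0 ∨ i = 1 ∨ i = 2 ∨ i = 5) (n : ℕ) (y : ℝ) :
    X i (n * y) = X i y ^ n := by
  induction n with
  | zero => simp [X_zero]
  | succ n ih =>
    rw [pow_succ, ← ih, ← X_add hi]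
    push_cast
    ring_nf

lemma W_X {S : Set N10} {k : ℕ} (hk : ∀ g : N10, (∀ i, |g i| ≤ 1) → W S k g) {i : Fin 10}
    (hi : i = 0 ∨ i = 1 ∨ i = 2 ∨ i = 5) (n : ℕ) (y : ℝ) (hy : |y| ≤ n) :
    W S (n * k) (X i y) := by
  rcases Nat.eq_zero_or_pos n with rfl | hn
  · have : y = 0 := by simpa using hy
    rw [this, X_zero]
    exact W.one _
  · have hn' : (0 : ℝ) < n := by exact_mod_cast hn
    have h1 : y = n * (y / n) := by field_simp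
    rw [h1, X_nat_mul hi]
    refine W.pow (hk _ fun j => ?_) n
    have h2 : |y / n| ≤ 1 := by
      rw [abs_div, abs_of_pos hn', div_le_one hn']
      exact hy
    by_cases hj : j = i
    · simp only [X, if_pos hj]
      exact h2
    · simp only [X, if_neg hj, abs_zero]
      exact zero_le_one

/-- conjugates of the elements `X 5 y` -/
def P (σ y : ℝ) : N10 := X 0 σ * X 5 y * (X 0 σ)⁻¹

lemma comm_eq (τ e : ℝ) : X 4 (τ * e) = X 1 τ * X 2 e * (X 1 τ)⁻¹ * (X 2 e)⁻¹ := by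
  refine ext10 ?_ ?_ ?_ ?_ ?_ ?_ ?_ ?_ ?_ ?_ <;> simp [X]

lemma P_0 (σ y : ℝ) : P σ y 0 = 0 := by simp [P, X]
lemma P_1 (σ y : ℝ) : P σ y 1 = 0 := by simp [P, X]
lemma P_2 (σ y : ℝ) : P σ y 2 = 0 := by simp [P, X]
lemma P_3 (σ y : ℝ) : P σ y 3 = 0 := by simp [P, X]
lemma P_4 (σ y : ℝ) : P σ y 4 = 0 := by simp [P, X]
lemma P_5 (σ y : ℝ) : P σ y 5 = y := by simp [P, X]
lemma P_6 (σ y : ℝ) : P σ y 6 = 4 * σ * y := by simp [P, X]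
lemma P_7 (σ y : ℝ) : P σ y 7 = 6 * σ ^ 2 * y := by simp [P, X]
lemma P_8 (σ y : ℝ) : P σ y 8 = 4 * σ ^ 3 * y := by simp [P, X]
lemma P_9 (σ y : ℝ) : P σ y 9 = σ ^ 4 * y := by simp [P, X]

lemma decomp (g : N10) (h0 : g 0 = 0) (h1 : g 1 = 0) (h2 : g 2 = 0) (h3 : g 3 = 0)
    (ρ m0 m1 m2 m3 m4 : ℝ) (h5 : g 5 = ρ * m0) (h6 : g 6 = 4 * ρ ^ 2 * m1)
    (h7 : g 7 = 6 * ρ ^ 3 * m2) (h8 : g 8 = 4 * ρ ^ 4 * m3) (h9 : g 9 = ρ ^ 5 * m4) :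
    g = X 4 (g 4) * (P 0 ((m4 - 10 * m3 + 35 * m2 - 50 * m1 + 24 * m0) / 24 * ρ) *
      (P ρ (-(m4 - 9 * m3 + 26 * m2 - 24 * m1) / 6 * ρ) *
      (P (2 * ρ) ((m4 - 8 * m3 + 19 * m2 - 12 * m1) / 4 * ρ) *
      (P (3 * ρ) (-(m4 - 7 * m3 + 14 * m2 - 8 * m1) / 6 * ρ) *
      P (4 * ρ) ((m4 - 6 * m3 + 11 * m2 - 6 * m1) / 24 * ρ))))) := by
  refine ext10 ?_ ?_ ?_ ?_ ?_ ?_ ?_ ?_ ?_ ?_
  · simp [P_0, h0, X]
  · simp [P_1, h1, X]
  · simp [P_2, h2, X]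
  · simp [P_3, h3, X]
  · simp [P_0, P_1, P_2, P_3, P_4, X]
  · simp [P_0, P_1, P_2, P_3, P_4, P_5, X, h5]
    ring
  · simp [P_0, P_1, P_2, P_3, P_4, P_5, P_6, X, h6]
    ring
  · simp [P_0, P_1, P_2, P_3, P_4, P_5, P_6, P_7, X, h7]
    ring
  · simp [P_0, P_1, P_2, P_3, P_4, P_5, P_6, P_7, P_8, X, h8]
    ring
  · simp [P_0, P_1, P_2, P_3, P_4, P_5, P_6, P_7, P_8, P_9, X, h9]
    ring

theorem wordLength_upper {S : Set N10} (hS : IsCompact S) (hgen : Subgroup.closure S = ⊤) :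
    ∃ C : ℝ, 1 ≤ C ∧ ∀ (g : N10) (ρ : ℝ), 1 ≤ ρ → g 0 = 0 → g 1 = 0 → g 2 = 0 → g 3 = 0 →
      (∀ i, |g i| ≤ ρ ^ wt i) → (wordLength S g : ℝ) ≤ C * ρ := by
  have hcomp : IsCompact {g : N10 | ∀ i, |g i| ≤ 1} := by
    have h1 : {g : N10 | ∀ i, |g i| ≤ 1} = (Set.pi univ fun _ : Fin 10 => Set.Icc (-1 : ℝ) 1) := by
      refine Set.Subset.antisymm (fun g hg i _ => ?_) (fun g hg i => ?_)
      · exact ⟨(abs_le.1 (hg i)).1, (abs_le.1 (hg i)).2⟩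
      · exact abs_le.2 ⟨(hg i (Set.mem_univ i)).1, (hg i (Set.mem_univ i)).2⟩
    rw [h1]
    exact isCompact_univ_pi fun _ => isCompact_Icc
  obtain ⟨k, hk⟩ := exists_W_compact hS hgen hcomp
  have hk' : ∀ g : N10, (∀ i, |g i| ≤ 1) → W S k g := fun g hg => hk g hg
  refine ⟨188 * k + 1, by linarith [(Nat.cast_nonneg k : (0:ℝ) ≤ k)],
    fun g ρ hρ h0 h1 h2 h3 hb => ?_⟩
  have hρ0 : 0 < ρ := lt_of_lt_of_le zero_lt_one hρ
  obtain ⟨n, hn1, hn2⟩ : ∃ n : ℕ, ρ ≤ n ∧ (n : ℝ) ≤ 2 * ρ :=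
    ⟨⌈ρ⌉₊, Nat.le_ceil ρ, by
      have := Nat.ceil_lt_add_one hρ0.le
      linarith⟩
  -- the polynomial part
  have b4 := hb 4
  have b5 := hb 5
  have b6 := hb 6
  have b7 := hb 7
  have b8 := hb 8
  have b9 := hb 9
  simp only [wt_4, wt_5, wt_6, wt_7, wt_8, wt_9] at b4 b5 b6 b7 b8 b9
  have hm : ∀ (x : ℝ) (c : ℝ) (w : ℕ), 1 ≤ c → |x| ≤ ρ ^ w → |x / (c * ρ ^ w)| ≤ 1 := by
    intro x c w hc hx
    have hw : 0 < ρ ^ w := by positivity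
    rw [abs_div, abs_of_pos (by positivity : 0 < c * ρ ^ w), div_le_one (by positivity)]
    nlinarith
  have m0 := hm (g 5) 1 1 le_rfl b5
  have m1 := hm (g 6) 4 2 (by norm_num) b6
  have m2 := hm (g 7) 6 3 (by norm_num) b7
  have m3 := hm (g 8) 4 4 (by norm_num) b8
  have m4 := hm (g 9) 1 5 le_rfl b9
  have hd := decomp g h0 h1 h2 h3 ρ (g 5 / (1 * ρ ^ 1)) (g 6 / (4 * ρ ^ 2)) (g 7 / (6 * ρ ^ 3))
    (g 8 / (4 * ρ ^ 4)) (g 9 / (1 * ρ ^ 5)) (by field_simp) (by field_simp) (by field_simp)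
    (by field_simp) (by field_simp)
  set a0 := g 5 / (1 * ρ ^ 1) with ha0
  set a1 := g 6 / (4 * ρ ^ 2) with ha1
  set a2 := g 7 / (6 * ρ ^ 3) with ha2
  set a3 := g 8 / (4 * ρ ^ 4) with ha3
  set a4 := g 9 / (1 * ρ ^ 5) with ha4
  have hP : ∀ σ y : ℝ, |σ| ≤ 4 * ρ → |y| ≤ 10 * ρ → W S (18 * n * k) (P σ y) := by
    intro σ y hσ hy
    have w1 : W S (4 * n * k) (X 0 σ) := W_X hk' (Or.inl rfl) (4 * n) σ (by
      push_cast
      linarith)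
    have w2 : W S (10 * n * k) (X 5 y) := W_X hk' (Or.inr (Or.inr (Or.inr rfl))) (10 * n) y (by
      push_cast
      linarith)
    exact ((w1.mul w2).mul w1.inv).mono (le_of_eq (by ring))
  have hc : ∀ c : ℝ, |c| ≤ 10 → |c * ρ| ≤ 10 * ρ := by
    intro c hc
    rw [abs_mul, abs_of_pos hρ0]
    gcongr
  have hs : ∀ c : ℝ, 0 ≤ c → c ≤ 4 → |c * ρ| ≤ 4 * ρ := by
    intro c hc0 hc
    rw [abs_mul, abs_of_pos hρ0, abs_of_nonneg hc0]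
    gcongr
  rw [abs_le] at m0 m1 m2 m3 m4
  obtain ⟨m0l, m0r⟩ := m0
  obtain ⟨m1l, m1r⟩ := m1
  obtain ⟨m2l, m2r⟩ := m2
  obtain ⟨m3l, m3r⟩ := m3
  obtain ⟨m4l, m4r⟩ := m4
  have w0 := hP 0 ((a4 - 10 * a3 + 35 * a2 - 50 * a1 + 24 * a0) / 24 * ρ)
    (by rw [abs_zero]; positivity) (hc _ (by rw [abs_le]; constructor <;> linarith))
  have w1 := hP ρ (-(a4 - 9 * a3 + 26 * a2 - 24 * a1) / 6 * ρ)
    (by rw [abs_of_pos hρ0]; linarith) (hc _ (by rw [abs_le]; constructor <;> linarith))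
  have w2 := hP (2 * ρ) ((a4 - 8 * a3 + 19 * a2 - 12 * a1) / 4 * ρ)
    (hs 2 (by norm_num) (by norm_num)) (hc _ (by rw [abs_le]; constructor <;> linarith))
  have w3 := hP (3 * ρ) (-(a4 - 7 * a3 + 14 * a2 - 8 * a1) / 6 * ρ)
    (hs 3 (by norm_num) (by norm_num)) (hc _ (by rw [abs_le]; constructor <;> linarith))
  have w4 := hP (4 * ρ) ((a4 - 6 * a3 + 11 * a2 - 6 * a1) / 24 * ρ)
    (hs 4 (by norm_num) le_rfl) (hc _ (by rw [abs_le]; constructor <;> linarith))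
  have wu : W S (4 * n * k) (X 4 (g 4)) := by
    have e1 : g 4 = ρ * (g 4 / ρ) := by field_simp
    have e2 : |g 4 / ρ| ≤ n := by
      rw [abs_div, abs_of_pos hρ0, div_le_iff₀ hρ0]
      nlinarith
    rw [e1, comm_eq]
    have v1 : W S (n * k) (X 1 ρ) := W_X hk' (Or.inr (Or.inl rfl)) n ρ (by
      rw [abs_of_pos hρ0]; exact hn1)
    have v2 : W S (n * k) (X 2 (g 4 / ρ)) := W_X hk' (Or.inr (Or.inr (Or.inl rfl))) n _ e2
    exact (((v1.mul v2).mul v1.inv).mul v2.inv).mono (le_of_eq (by ring))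
  have hW : W S (94 * n * k) g := by
    rw [hd]
    exact (wu.mul (w0.mul (w1.mul (w2.mul (w3.mul w4))))).mono (le_of_eq (by ring))
  have hle : (wordLength S g : ℝ) ≤ ((94 * n * k : ℕ) : ℝ) := by
    exact_mod_cast wordLength_le hW
  refine hle.trans ?_
  push_cast
  have hk0 : (0 : ℝ) ≤ k := Nat.cast_nonneg k
  nlinarith [mul_le_mul_of_nonneg_right hn2 hk0]

end N10

end Pool.Agent.Systolic
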