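import Pool.Agent.Work.MP_bf6ff4_al.Lat

/-!
The combinatorial lower bound: boxes with disjoint translates for subgroups of the integer lattice.
-/

open Set

namespace Pool.Agent.Systolic

namespace N10

/-- commutators with an element having first four coordinates zero -/
lemma comm_coords (m x : N10) (h0 : x 0 = 0) (h1 : x 1 = 0) (h2 : x 2 = 0) (h3 : x 3 = 0) :
    (m * x * m⁻¹ * x⁻¹) 0 = 0 ∧ (m * x * m⁻¹ * x⁻¹) 1 = 0 ∧ (m * x * m⁻¹ * x⁻¹) 2 = 0 ∧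
    (m * x * m⁻¹ * x⁻¹) 3 = 0 ∧ (m * x * m⁻¹ * x⁻¹) 4 = 0 ∧ (m * x * m⁻¹ * x⁻¹) 5 = 0 ∧
    (m * x * m⁻¹ * x⁻¹) 6 = 4 * m 0 * x 5 ∧
    (m * x * m⁻¹ * x⁻¹) 7 = 3 * m 0 * x 6 + 6 * m 0 ^ 2 * x 5 ∧
    (m * x * m⁻¹ * x⁻¹) 8 = 2 * m 0 * x 7 + 3 * m 0 ^ 2 * x 6 + 4 * m 0 ^ 3 * x 5 ∧
    (m * x * m⁻¹ * x⁻¹) 9 = m 0 * x 8 + m 0 ^ 2 * x 7 + m 0 ^ 3 * x 6 + m 0 ^ 4 * x 5 := by
  refine ⟨?_, ?_, ?_, ?_, ?_, ?_, ?_, ?_, ?_, ?_⟩
  · simp
  · simp
  · simp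
  · simp
  · simp [h1, h2]; ring
  · simp
  · simp [h0]; ring
  · simp [h0]; ring
  · simp [h0]; ring
  · simp [h0, h1, h3]; ring

lemma comm_coords' (m x : N10) (hm : m 0 = 0) (h0 : x 0 = 0) (h1 : x 1 = 0) (h2 : x 2 = 0) :
    (m * x * m⁻¹ * x⁻¹) 0 = 0 ∧ (m * x * m⁻¹ * x⁻¹) 1 = 0 ∧ (m * x * m⁻¹ * x⁻¹) 2 = 0 ∧
    (m * x * m⁻¹ * x⁻¹) 3 = 0 ∧ (m * x * m⁻¹ * x⁻¹) 4 = 0 ∧ (m * x * m⁻¹ * x⁻¹) 5 = 0 ∧
    (m * x * m⁻¹ * x⁻¹) 6 = 0 ∧ (m * x * m⁻¹ * x⁻¹) 7 = 0 ∧ (m * x * m⁻¹ * x⁻¹) 8 = 0 ∧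
    (m * x * m⁻¹ * x⁻¹) 9 = m 1 * x 3 := by
  refine ⟨?_, ?_, ?_, ?_, ?_, ?_, ?_, ?_, ?_, ?_⟩
  · simp
  · simp
  · simp
  · simp
  · simp [h1, h2]; ring
  · simp
  · simp [h0, hm]
  · simp [h0, hm]
  · simp [h0, hm]
  · simp [h0, h1, hm]; ring

lemma exists_min_abs (A : Set N10) (i : Fin 10) (hA : A.Nonempty) (hZ : ∀ x ∈ A, x i ∈ ZR) :
    ∃ m ∈ A, ∀ x ∈ A, |m i| ≤ |x i| := by
  have hf : ∀ x ∈ A, ((⌊|x i|⌋₊ : ℕ) : ℝ) = |x i| := by
    intro x hx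
    obtain ⟨n, hn⟩ := hZ x hx
    have hn' : x i = (n : ℝ) := hn.symm
    have h1 : |x i| = ((n.natAbs : ℕ) : ℝ) := by
      rw [hn', Nat.cast_natAbs, Int.cast_abs]
    rw [h1, Nat.floor_natCast]
  refine ⟨Function.argminOn (fun x : N10 => ⌊|x i|⌋₊) A hA, Function.argminOn_mem _ _ _, ?_⟩
  intro x hx
  rw [← hf x hx, ← hf _ (Function.argminOn_mem (fun x : N10 => ⌊|x i|⌋₊) A hA)]
  exact_mod_cast Function.argminOn_le (fun x : N10 => ⌊|x i|⌋₊) A hx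

variable {Λ : Subgroup N10} {R : ℝ}

/-- the hypothesis coming from the systole -/
def Thick (Λ : Subgroup N10) (R : ℝ) : Prop :=
  ∀ x ∈ Λ, x 0 = 0 → x 1 = 0 → x 2 = 0 → x 3 = 0 → (∀ i, |x i| ≤ R ^ wt i) → x = 1

lemma Thick.const (hP : Thick Λ R) (hR : 0 < R) {y : N10} (hy : y ∈ Λ) (h0 : y 0 = 0)
    (h1 : y 1 = 0) (h2 : y 2 = 0) (h3 : y 3 = 0) (h4 : y 4 = 0) (h5 : y 5 = 0) (h6 : y 6 = 0)
    (h7 : y 7 = 0) (h8 : y 8 = 0) (h9 : y 9 ≠ 0) : R ^ 5 < |y 9| := by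
  by_contra hcon
  rw [not_lt] at hcon
  have h : y = 1 := by
    refine hP y hy h0 h1 h2 h3 fun i => ?_
    have hz : ∀ j, y j = 0 → |y j| ≤ R ^ wt j := fun j hj => by
      rw [hj, abs_zero]; positivity
    fin_cases i
    · exact hz 0 h0
    · exact hz 1 h1
    · exact hz 2 h2
    · exact hz 3 h3
    · exact hz 4 h4
    · exact hz 5 h5
    · exact hz 6 h6
    · exact hz 7 h7
    · exact hz 8 h8
    · exact hcon
  rw [h] at h9
  exact h9 rfl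

lemma comm_mem {m x : N10} (hm : m ∈ Λ) (hx : x ∈ Λ) : m * x * m⁻¹ * x⁻¹ ∈ Λ :=
  Λ.mul_mem (Λ.mul_mem (Λ.mul_mem hm hx) (Λ.inv_mem hm)) (Λ.inv_mem hx)

lemma exists_ta (hΛ : Λ ≤ Gam) (hR : 0 < R) (hP : Thick Λ R) :
    ∃ bt ba : ℝ, 0 < bt ∧ 0 < ba ∧ bt * ba = R ^ 5 ∧
      (∀ x ∈ Λ, x 0 = 0 → |x 1| < bt → x 1 = 0) ∧
      (∀ x ∈ Λ, x 0 = 0 → x 1 = 0 → x 2 = 0 → |x 3| < ba → x 3 = 0) := by
  have hR5 : 0 < R ^ 5 := by positivity
  by_cases hA : ({x : N10 | x ∈ Λ ∧ x 0 = 0 ∧ x 1 ≠ 0}).Nonempty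
  · obtain ⟨m, ⟨hm, hm0, hm1⟩, hmin⟩ := exists_min_abs _ 1 hA (fun x hx => hΛ hx.1 1)
    have hb : 0 < |m 1| := abs_pos.2 hm1
    refine ⟨|m 1|, R ^ 5 / |m 1|, hb, by positivity, by field_simp, ?_, ?_⟩
    · intro x hx hx0 hlt
      by_contra hx1
      exact absurd (hmin x ⟨hx, hx0, hx1⟩) (not_le.2 hlt)
    · intro x hx hx0 hx1 hx2 hlt
      by_contra hx3
      obtain ⟨c0, c1, c2, c3, c4, c5, c6, c7, c8, c9⟩ := comm_coords' m x hm0 hx0 hx1 hx2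
      have h := hP.const hR (comm_mem hm hx) c0 c1 c2 c3 c4 c5 c6 c7 c8
        (by rw [c9]; exact mul_ne_zero hm1 hx3)
      rw [c9, abs_mul] at h
      rw [lt_div_iff₀ hb] at hlt
      linarith [mul_comm |m 1| |x 3|]
  · refine ⟨R ^ 5, 1, hR5, one_pos, mul_one _, ?_, ?_⟩
    · intro x hx hx0 _
      by_contra hx1
      exact hA ⟨x, hx, hx0, hx1⟩
    · intro x hx _ _ _ hlt
      exact ZR_eq_zero (hΛ hx 3) hlt

section chain
variable (hR : 0 < R) (hP : Thick Λ R) {m : N10} (hm : m ∈ Λ) (hm0 : m 0 ≠ 0)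
include hR hP hm hm0

lemma chain8 {x : N10} (hx : x ∈ Λ) (h0 : x 0 = 0) (h1 : x 1 = 0) (h2 : x 2 = 0) (h3 : x 3 = 0)
    (h5 : x 5 = 0) (h6 : x 6 = 0) (h7 : x 7 = 0) (h8 : x 8 ≠ 0) : R ^ 5 < |m 0| * |x 8| := by
  obtain ⟨c0, c1, c2, c3, c4, c5, c6, c7, c8, c9⟩ := comm_coords m x h0 h1 h2 h3
  rw [h5, mul_zero] at c6
  rw [h5, h6, mul_zero, mul_zero, add_zero] at c7
  rw [h5, h6, h7, mul_zero, mul_zero, mul_zero, add_zero, add_zero] at c8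
  rw [h5, h6, h7, mul_zero, mul_zero, mul_zero, add_zero, add_zero, add_zero] at c9
  have h := hP.const hR (comm_mem hm hx) c0 c1 c2 c3 c4 c5 c6 c7 c8
    (by rw [c9]; exact mul_ne_zero hm0 h8)
  rw [c9, abs_mul] at h
  exact h

lemma chain7 {x : N10} (hx : x ∈ Λ) (h0 : x 0 = 0) (h1 : x 1 = 0) (h2 : x 2 = 0) (h3 : x 3 = 0)
    (h5 : x 5 = 0) (h6 : x 6 = 0) (h7 : x 7 ≠ 0) : R ^ 5 < 2 * |m 0| ^ 2 * |x 7| := by
  obtain ⟨c0, c1, c2, c3, c4, c5, c6, c7, c8, c9⟩ := comm_coords m x h0 h1 h2 h3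
  rw [h5, mul_zero] at c6
  rw [h5, h6, mul_zero, mul_zero, add_zero] at c7
  rw [h5, h6, mul_zero, mul_zero, add_zero, add_zero] at c8
  have h := chain8 hR hP hm hm0 (comm_mem hm hx) c0 c1 c2 c3 c5 c6 c7
    (by rw [c8]; exact mul_ne_zero (mul_ne_zero two_ne_zero hm0) h7)
  rw [c8, abs_mul, abs_mul, abs_of_pos (by norm_num : (0 : ℝ) < 2)] at h
  calc R ^ 5 < _ := h
    _ = 2 * |m 0| ^ 2 * |x 7| := by ring

lemma chain6 {x : N10} (hx : x ∈ Λ) (h0 : x 0 = 0) (h1 : x 1 = 0) (h2 : x 2 = 0) (h3 : x 3 = 0)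
    (h5 : x 5 = 0) (h6 : x 6 ≠ 0) : R ^ 5 < 6 * |m 0| ^ 3 * |x 6| := by
  obtain ⟨c0, c1, c2, c3, c4, c5, c6, c7, c8, c9⟩ := comm_coords m x h0 h1 h2 h3
  rw [h5, mul_zero] at c6
  rw [h5, mul_zero, add_zero] at c7
  have h := chain7 hR hP hm hm0 (comm_mem hm hx) c0 c1 c2 c3 c5 c6
    (by rw [c7]; exact mul_ne_zero (mul_ne_zero three_ne_zero hm0) h6)
  rw [c7, abs_mul, abs_mul, abs_of_pos (by norm_num : (0 : ℝ) < 3)] at h
  calc R ^ 5 < _ := h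
    _ = 6 * |m 0| ^ 3 * |x 6| := by ring

lemma chain5 {x : N10} (hx : x ∈ Λ) (h0 : x 0 = 0) (h1 : x 1 = 0) (h2 : x 2 = 0) (h3 : x 3 = 0)
    (h5 : x 5 ≠ 0) : R ^ 5 < 24 * |m 0| ^ 4 * |x 5| := by
  obtain ⟨c0, c1, c2, c3, c4, c5, c6, c7, c8, c9⟩ := comm_coords m x h0 h1 h2 h3
  have h := chain6 hR hP hm hm0 (comm_mem hm hx) c0 c1 c2 c3 c5
    (by rw [c6]; exact mul_ne_zero (mul_ne_zero four_ne_zero hm0) h5)
  rw [c6, abs_mul, abs_mul, abs_of_pos (by norm_num : (0 : ℝ) < 4)] at h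
  calc R ^ 5 < _ := h
    _ = 24 * |m 0| ^ 4 * |x 5| := by ring

end chain

theorem exists_box (hΛ : Λ ≤ Gam) (hR : 0 < R) (hP : Thick Λ R) :
    ∃ b : Fin 10 → ℝ, (∀ i, 0 < b i) ∧ R ^ 23 / 331776 ≤ ∏ i, b i ∧
      ∀ l ∈ Λ, ∀ g ∈ box b, l * g ∈ box b → l = 1 := by
  obtain ⟨bt, ba, hbt, hba, hprod, ht, ha⟩ := exists_ta hΛ hR hP
  by_cases hA : ({x : N10 | x ∈ Λ ∧ x 0 ≠ 0 ∧ |x 0| ≤ R}).Nonempty
  · obtain ⟨m, ⟨hm, hm0, hmR⟩, hmin⟩ := exists_min_abs _ 0 hA (fun x hx => hΛ hx.1 0)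
    set χ : ℝ := |m 0| with hχ
    have hχ0 : 0 < χ := abs_pos.2 hm0
    refine ⟨![χ, bt, 1, ba, R ^ 2, R ^ 5 / (24 * χ ^ 4), R ^ 5 / (24 * χ ^ 3),
      R ^ 5 / (24 * χ ^ 2), R ^ 5 / (24 * χ), R ^ 5], ?_, ?_, ?_⟩
    · intro i
      fin_cases i
      · exact hχ0
      · exact hbt
      · exact one_pos
      · exact hba
      · change 0 < R ^ 2
        positivity
      · change 0 < R ^ 5 / (24 * χ ^ 4)
        positivity
      · change 0 < R ^ 5 / (24 * χ ^ 3)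
        positivity
      · change 0 < R ^ 5 / (24 * χ ^ 2)
        positivity
      · change 0 < R ^ 5 / (24 * χ)
        positivity
      · change 0 < R ^ 5
        positivity
    · have e1 : ∏ i, (![χ, bt, 1, ba, R ^ 2, R ^ 5 / (24 * χ ^ 4), R ^ 5 / (24 * χ ^ 3),
          R ^ 5 / (24 * χ ^ 2), R ^ 5 / (24 * χ), R ^ 5] : Fin 10 → ℝ) i =
          (bt * ba) * (R ^ 27 / (331776 * χ ^ 9)) := by
        simp only [Fin.prod_univ_succ, Matrix.cons_val_zero, Matrix.cons_val_succ,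
          Finset.univ_eq_empty, Finset.prod_empty]
        simp
        field_simp
        ring
      rw [e1, hprod]
      have e2 : R ^ 5 * (R ^ 27 / (331776 * χ ^ 9)) = R ^ 32 / (331776 * χ ^ 9) := by ring
      rw [e2, div_le_div_iff₀ (by norm_num) (by positivity)]
      have e3 : χ ^ 9 ≤ R ^ 9 := by gcongr
      calc R ^ 23 * (331776 * χ ^ 9) ≤ R ^ 23 * (331776 * R ^ 9) := by gcongr
        _ = R ^ 32 * 331776 := by ring
    · intro l hl g hg hlg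
      obtain ⟨h0, h1, h2, h3, h5, h4, h6, h7, h8, h9⟩ := box_diff hg hlg
      have z0 : l 0 = 0 := by
        by_contra hne
        have h0' : |l 0| < χ := h0
        exact absurd (hmin l ⟨hl, hne, h0'.le.trans hmR⟩) (not_le.2 h0')
      have z1 : l 1 = 0 := ht l hl z0 h1
      have z2 : l 2 = 0 := ZR_eq_zero (hΛ hl 2) h2
      have z3 : l 3 = 0 := ha l hl z0 z1 z2 h3
      have z5 : l 5 = 0 := by
        by_contra hne
        have h5' : |l 5| < R ^ 5 / (24 * χ ^ 4) := h5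
        rw [lt_div_iff₀ (by positivity)] at h5'
        have := chain5 hR hP hm hm0 hl z0 z1 z2 z3 hne
        rw [← hχ] at this
        linarith [mul_comm |l 5| (24 * χ ^ 4)]
      have z6 : l 6 = 0 := by
        by_contra hne
        have h6' : |l 6| < R ^ 5 / (24 * χ ^ 3) := h6 z0
        rw [lt_div_iff₀ (by positivity)] at h6'
        have := chain6 hR hP hm hm0 hl z0 z1 z2 z3 z5 hne
        rw [← hχ] at this
        have h : 0 ≤ χ ^ 3 * |l 6| := by positivity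
        linarith
      have z7 : l 7 = 0 := by
        by_contra hne
        have h7' : |l 7| < R ^ 5 / (24 * χ ^ 2) := h7 z0
        rw [lt_div_iff₀ (by positivity)] at h7'
        have := chain7 hR hP hm hm0 hl z0 z1 z2 z3 z5 z6 hne
        rw [← hχ] at this
        have h : 0 ≤ χ ^ 2 * |l 7| := by positivity
        linarith
      have z8 : l 8 = 0 := by
        by_contra hne
        have h8' : |l 8| < R ^ 5 / (24 * χ) := h8 z0
        rw [lt_div_iff₀ (by positivity)] at h8'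
        have := chain8 hR hP hm hm0 hl z0 z1 z2 z3 z5 z6 z7 hne
        rw [← hχ] at this
        have h : 0 ≤ χ * |l 8| := by positivity
        linarith
      refine hP l hl z0 z1 z2 z3 fun i => ?_
      have hz : ∀ j, l j = 0 → |l j| ≤ R ^ wt j := fun j hj => by
        rw [hj, abs_zero]; positivity
      fin_cases i
      · exact hz 0 z0
      · exact hz 1 z1
      · exact hz 2 z2
      · exact hz 3 z3
      · exact (h4 z1).le
      · exact hz 5 z5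
      · exact hz 6 z6
      · exact hz 7 z7
      · exact hz 8 z8
      · exact (h9 z0 z1).le
  · refine ⟨![R, bt, 1, ba, R ^ 2, R, R ^ 2, R ^ 3, R ^ 4, R ^ 5], ?_, ?_, ?_⟩
    · intro i
      fin_cases i
      · exact hR
      · exact hbt
      · exact one_pos
      · exact hba
      · change 0 < R ^ 2
        positivity
      · exact hR
      · change 0 < R ^ 2
        positivity
      · change 0 < R ^ 3
        positivity
      · change 0 < R ^ 4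
        positivity
      · change 0 < R ^ 5
        positivity
    · have e1 : ∏ i, (![R, bt, 1, ba, R ^ 2, R, R ^ 2, R ^ 3, R ^ 4, R ^ 5] : Fin 10 → ℝ) i =
          (bt * ba) * R ^ 18 := by
        simp only [Fin.prod_univ_succ, Matrix.cons_val_zero, Matrix.cons_val_succ,
          Finset.univ_eq_empty, Finset.prod_empty]
        simp
        ring
      rw [e1, hprod]
      have e2 : R ^ 5 * R ^ 18 = R ^ 23 := by ring
      rw [e2]
      have : 0 < R ^ 23 := by positivity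
      linarith
    · intro l hl g hg hlg
      obtain ⟨h0, h1, h2, h3, h5, h4, h6, h7, h8, h9⟩ := box_diff hg hlg
      have z0 : l 0 = 0 := by
        by_contra hne
        have h0' : |l 0| < R := h0
        exact hA ⟨l, hl, hne, h0'.le⟩
      have z1 : l 1 = 0 := ht l hl z0 h1
      have z2 : l 2 = 0 := ZR_eq_zero (hΛ hl 2) h2
      have z3 : l 3 = 0 := ha l hl z0 z1 z2 h3
      refine hP l hl z0 z1 z2 z3 fun i => ?_
      have hz : ∀ j, l j = 0 → |l j| ≤ R ^ wt j := fun j hj => by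
        rw [hj, abs_zero]; positivity
      fin_cases i
      · exact hz 0 z0
      · exact hz 1 z1
      · exact hz 2 z2
      · exact hz 3 z3
      · exact (h4 z1).le
      · change |l 5| ≤ R ^ 1
        rw [pow_one]
        exact h5.le
      · exact (h6 z0).le
      · exact (h7 z0).le
      · exact (h8 z0).le
      · exact (h9 z0 z1).le

end N10

end Pool.Agent.Systolic
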