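import Pool.Agent.Work.MP_bf6ff4_al.Auto
import Pool.Agent.Work.MP_bf6ff4_al.Lower
import Pool.Agent.Work.MP_bf6ff4_al.LenLow
import Pool.Agent.Work.MP_bf6ff4_al.LenUp

/-!
Bounds for the systolic growths.
-/

open MeasureTheory Set
open scoped ENNReal

namespace Pool.Agent.Systolic

namespace N10

lemma systole_le {S : Set N10} {Λ : Subgroup N10} {x : N10} (hx : x ∈ Λ) (h1 : x ≠ 1) :
    systole S Λ ≤ (wordLength S x : ℝ≥0∞) :=
  iInf₂_le x ⟨hx, h1⟩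

lemma le_systole {S : Set N10} {Λ : Subgroup N10} {r : ℝ}
    (h : ∀ x ∈ Λ, x ≠ 1 → r ≤ (wordLength S x : ℝ)) : ENNReal.ofReal r ≤ systole S Λ := by
  refine le_iInf₂ fun x hx => ?_
  rw [← ENNReal.ofReal_natCast]
  exact ENNReal.ofReal_le_ofReal (h x hx.1 hx.2)

lemma box_le_covolume {μ : Measure N10} [μ.IsHaarMeasure] {Λ : Subgroup N10} (hΛ : IsLattice μ Λ)
    {b : Fin 10 → ℝ} (h : ∀ l ∈ Λ, ∀ g ∈ box b, l * g ∈ box b → l = 1) :
    μ (box b) ≤ covolume Λ N10 μ := by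
  obtain ⟨hd, F, hF, _⟩ := hΛ
  rw [hF.covolume_eq_volume μ]
  refine hF.measure_le_of_pairwise_disjoint (measurableSet_box b).nullMeasurableSet ?_
  intro g g' hgg'
  refine Disjoint.aedisjoint ?_
  rw [Set.disjoint_left]
  rintro x ⟨hx, _⟩ ⟨hx', _⟩
  obtain ⟨y, hy, rfl⟩ := hx
  obtain ⟨y', hy', hyy'⟩ := hx'
  apply hgg'
  have e1 : (g' : N10) * y' = (g : N10) * y := hyy'
  have h1 : (g' : N10)⁻¹ * g = 1 := by
    refine h _ (Λ.mul_mem (Λ.inv_mem g'.2) g.2) y hy ?_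
    rw [mul_assoc, ← e1, inv_mul_cancel_left]
    exact hy'
  exact Subtype.ext (inv_mul_eq_one.1 h1).symm

lemma haar_eq' (μ : Measure N10) [μ.IsHaarMeasure] :
    ∃ c : ℝ, 0 < c ∧ μ = ENNReal.ofReal c • (volume : Measure N10) := by
  obtain ⟨c, h0, h1, h2⟩ := haar_eq μ
  refine ⟨c.toReal, ENNReal.toReal_pos h0 h1, ?_⟩
  rw [ENNReal.ofReal_toReal h1]
  exact h2

theorem lower_bound (μ : Measure N10) [μ.IsHaarMeasure] {S : Set N10} (hS : IsCompact S)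
    (hgen : Subgroup.closure S = ⊤) :
    ∃ c : ℝ, 0 < c ∧ ∀ r : ℝ, 0 < r → ENNReal.ofReal (c * r ^ 23) ≤ sysGrowthIn μ S Gam r := by
  obtain ⟨C, hC1, hC⟩ := wordLength_upper hS hgen
  obtain ⟨κ, hκ, hμ⟩ := haar_eq' μ
  have hC0 : 0 < C := lt_of_lt_of_le one_pos hC1
  refine ⟨κ / (331776 * (2 * C) ^ 23), by positivity, fun r hr => ?_⟩
  refine le_iInf₂ fun Λ hΛ => ?_
  obtain ⟨hle, hlat, hsys⟩ := hΛ
  set R : ℝ := r / (2 * C) with hRdef
  have hR : 0 < R := by positivity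
  have hThick : Thick Λ R := by
    intro x hx h0 h1 h2 h3 hb
    by_contra hne
    rcases lt_or_ge R 1 with hlt | hge
    · apply hne
      funext i
      refine ZR_eq_zero (hle hx i) (lt_of_le_of_lt (hb i) ?_)
      have hw : wt i ≠ 0 := by
        fin_cases i <;> simp [wt]
      exact pow_lt_one₀ hR.le hlt hw
    · have h4 := hC x R hge h0 h1 h2 h3 hb
      have h5 : C * R = r / 2 := by rw [hRdef]; field_simp
      have h6 : ENNReal.ofReal r ≤ (wordLength S x : ℝ≥0∞) := hsys.trans (systole_le hx hne)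
      rw [← ENNReal.ofReal_natCast, ENNReal.ofReal_le_ofReal_iff (by positivity)] at h6
      linarith
  obtain ⟨b, hb0, hbprod, hbdisj⟩ := exists_box hle hR hThick
  refine le_trans ?_ (box_le_covolume hlat hbdisj)
  rw [hμ, Measure.smul_apply, volume_box (fun i => (hb0 i).le), smul_eq_mul,
    ← ENNReal.ofReal_mul hκ.le]
  refine ENNReal.ofReal_le_ofReal ?_
  have e1 : κ / (331776 * (2 * C) ^ 23) * r ^ 23 = κ * (R ^ 23 / 331776) := by
    rw [hRdef, div_pow]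
    field_simp
  rw [e1]
  gcongr

lemma covol_lat (p : Par) {κ : ℝ} (hκ : 0 < κ) :
    (ENNReal.ofReal κ • (volume : Measure N10)) p.dom =
      ENNReal.ofReal (κ * LinearMap.det p.lin) := by
  rw [Measure.smul_apply, volume_dom, smul_eq_mul, ← ENNReal.ofReal_mul hκ.le]

/-- the parameters for the lattices of small covolume -/
noncomputable def parG (ρ : ℝ) (hρ : 0 < ρ) : Par where
  σ := ρ ^ 2
  τ := ρ ^ 5
  ε := ρ⁻¹
  α := ρ ^ 5
  l := ρ ^ 2
  θ := Real.sqrt 2 * ρ ^ 5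
  hσ := by positivity
  hτ := by positivity
  hε := by positivity
  hα := by positivity
  hl := by positivity
  rel := by ring

lemma det_parG (ρ : ℝ) (hρ : 0 < ρ) : LinearMap.det (parG ρ hρ).lin = ρ ^ 45 := by
  rw [Par.det_lin]
  simp only [parG]
  field_simp
  try ring

/-- bad approximability of the square root of two -/
lemma sqrt_two_bad {x y : ℝ} (hx : x ∈ ZR) (hy : y ∈ ZR) (hne : x ≠ 0) :
    1 ≤ 4 * |x| * |y + Real.sqrt 2 * x| := by
  have hs : Real.sqrt 2 ^ 2 = 2 := Real.sq_sqrt (by norm_num)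
  have hs0 : 0 < Real.sqrt 2 := Real.sqrt_pos.2 (by norm_num)
  have hs1 : Real.sqrt 2 ≤ 3 / 2 := by
    rw [Real.sqrt_le_left (by norm_num)]
    norm_num
  have hx1 : 1 ≤ |x| := ZR_one_le hx hne
  -- the norm is a nonzero integer
  have hN : y ^ 2 - 2 * x ^ 2 ∈ ZR := sub_mem (pow_mem hy 2) (mul_mem (ofNat_mem ZR 2) (pow_mem hx 2))
  have hN0 : y ^ 2 - 2 * x ^ 2 ≠ 0 := by
    intro h0
    obtain ⟨a, ha⟩ := hx
    obtain ⟨b, hb⟩ := hy
    have ha' : (a : ℝ) = x := ha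
    have hb' : (b : ℝ) = y := hb
    rw [← ha', ← hb'] at h0
    have h1 : (b : ℝ) ^ 2 = 2 * (a : ℝ) ^ 2 := by linarith
    have ha0 : (a : ℝ) ≠ 0 := by rw [ha']; exact hne
    have h2 : ((b : ℝ) / a) ^ 2 = 2 := by
      rw [div_pow, h1]
      field_simp
    have h3 : Irrational (Real.sqrt 2) := irrational_sqrt_two
    have h4 : Real.sqrt 2 = |(b : ℝ) / a| := by
      rw [← h2, Real.sqrt_sq_eq_abs]
    apply h3
    refine ⟨|(b : ℚ) / a|, ?_⟩
    rw [h4]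
    push_cast
    rfl
  have h1 : 1 ≤ |y ^ 2 - 2 * x ^ 2| := ZR_one_le hN hN0
  have h2 : y ^ 2 - 2 * x ^ 2 = (y + Real.sqrt 2 * x) * (y - Real.sqrt 2 * x) := by
    linear_combination (x ^ 2) * hs
  rw [h2, abs_mul] at h1
  set d : ℝ := |y + Real.sqrt 2 * x| with hd
  have hd0 : 0 ≤ d := abs_nonneg _
  rcases le_or_gt 1 d with h3 | h3
  · nlinarith
  · have h4 : |y - Real.sqrt 2 * x| ≤ d + 2 * Real.sqrt 2 * |x| := by
      have e : y - Real.sqrt 2 * x = (y + Real.sqrt 2 * x) + (-(2 * Real.sqrt 2 * x)) := by ring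
      rw [e]
      refine (abs_add_le _ _).trans ?_
      rw [abs_neg, abs_mul, abs_of_pos (by positivity : 0 < 2 * Real.sqrt 2)]
    have h5 : |y - Real.sqrt 2 * x| ≤ 4 * |x| := by nlinarith
    nlinarith

lemma parG_big {ρ : ℝ} (hρ : 1 ≤ ρ) {g : N10} (hg : g ∈ Gam) (hne : g ≠ 1) :
    ∃ i, (ρ ^ 2 / 4) ^ wt i ≤ |(parG ρ (lt_of_lt_of_le one_pos hρ)).fn g i| := by
  have hρ0 : 0 < ρ := lt_of_lt_of_le one_pos hρ
  set p := parG ρ hρ0 with hp
  have hq0 : 0 ≤ ρ ^ 2 / 4 := by positivity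
  have hq1 : ρ ^ 2 / 4 ≤ ρ ^ 2 := by linarith [sq_nonneg ρ]
  have hpw : ∀ w : ℕ, (ρ ^ 2 / 4) ^ w ≤ (ρ ^ 2) ^ w := fun w => pow_le_pow_left₀ hq0 hq1 w
  have key : ∀ (i : Fin 10) (c : ℝ), 0 < c → (ρ ^ 2) ^ wt i ≤ c → p.fn g i = c * g i → g i ≠ 0 →
      (ρ ^ 2 / 4) ^ wt i ≤ |p.fn g i| := by
    intro i c hc hle he hgi
    rw [he, abs_mul, abs_of_pos hc]
    have h1 : 1 ≤ |g i| := ZR_one_le (hg i) hgi
    calc (ρ ^ 2 / 4) ^ wt i ≤ (ρ ^ 2) ^ wt i := hpw _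
      _ ≤ c := hle
      _ = c * 1 := (mul_one c).symm
      _ ≤ c * |g i| := by gcongr
  have hp5 : ρ ^ 2 ≤ ρ ^ 5 := pow_le_pow_right₀ hρ (by norm_num)
  by_cases h0 : g 0 = 0
  swap
  · exact ⟨0, key 0 (ρ ^ 2) (by positivity) (by rw [wt_0, pow_one]) rfl h0⟩
  by_cases h1 : g 1 = 0
  swap
  · exact ⟨1, key 1 (ρ ^ 5) (by positivity) (by rw [wt_1, pow_one]; exact hp5) rfl h1⟩
  by_cases h2 : g 2 = 0
  swap
  · rcases le_or_gt (ρ ^ 3) |g 2| with h | h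
    · refine ⟨2, ?_⟩
      have e : p.fn g 2 = ρ⁻¹ * g 2 := rfl
      rw [e, wt_2, pow_one, abs_mul, abs_of_pos (inv_pos.2 hρ0)]
      calc ρ ^ 2 / 4 ≤ ρ ^ 2 := hq1
        _ = ρ⁻¹ * ρ ^ 3 := by field_simp
        _ ≤ ρ⁻¹ * |g 2| := by gcongr
    · refine ⟨3, ?_⟩
      have e : p.fn g 3 = ρ ^ 5 * (g 3 + Real.sqrt 2 * g 2) := by
        rw [fn_3]
        simp only [hp, parG]
        ring
      rw [e, wt_3, pow_one, abs_mul, abs_of_pos (by positivity : 0 < ρ ^ 5)]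
      have h4 := sqrt_two_bad (hg 2) (hg 3) h2
      set d := |g 3 + Real.sqrt 2 * g 2| with hd
      have hd0 : 0 ≤ d := abs_nonneg _
      have h5 : 1 ≤ 4 * ρ ^ 3 * d := h4.trans (by gcongr)
      have h6 : ρ ^ 5 * d = ρ ^ 2 / 4 * (4 * ρ ^ 3 * d) := by ring
      rw [h6]
      exact le_mul_of_one_le_right hq0 h5
  by_cases h3 : g 3 = 0
  swap
  · refine ⟨3, key 3 (ρ ^ 5) (by positivity) (by rw [wt_3, pow_one]; exact hp5) ?_ h3⟩
    rw [fn_3, h2, mul_zero, add_zero]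
    rfl
  by_cases h4 : g 4 = 0
  swap
  · refine ⟨4, key 4 (ρ ^ 4) (by positivity) (by rw [wt_4]; exact le_of_eq (by ring)) ?_ h4⟩
    rw [fn_4]
    simp only [hp, parG]
    field_simp
  by_cases h5 : g 5 = 0
  swap
  · exact ⟨5, key 5 (ρ ^ 2) (by positivity) (by rw [wt_5, pow_one]) rfl h5⟩
  by_cases h6 : g 6 = 0
  swap
  · refine ⟨6, key 6 (ρ ^ 4) (by positivity) (by rw [wt_6]; exact le_of_eq (by ring)) ?_ h6⟩
    rw [fn_6]
    simp only [hp, parG]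
    ring
  by_cases h7 : g 7 = 0
  swap
  · refine ⟨7, key 7 (ρ ^ 6) (by positivity) (by rw [wt_7]; exact le_of_eq (by ring)) ?_ h7⟩
    rw [fn_7]
    simp only [hp, parG]
    ring
  by_cases h8 : g 8 = 0
  swap
  · refine ⟨8, key 8 (ρ ^ 8) (by positivity) (by rw [wt_8]; exact le_of_eq (by ring)) ?_ h8⟩
    rw [fn_8]
    simp only [hp, parG]
    ring
  by_cases h9 : g 9 = 0
  swap
  · refine ⟨9, key 9 (ρ ^ 10) (by positivity) (by rw [wt_9]; exact le_of_eq (by ring)) ?_ h9⟩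
    rw [fn_9, h4]
    simp only [hp, parG]
    ring
  exact absurd (ext10 h0 h1 h2 h3 h4 h5 h6 h7 h8 h9) hne

theorem upper_bound (μ : Measure N10) [μ.IsHaarMeasure] {S : Set N10} (hS : IsCompact S)
    (hgen : Subgroup.closure S = ⊤) :
    ∃ C : ℝ, 0 < C ∧ ∀ r : ℝ, 1 ≤ r →
      sysGrowth μ S r ≤ ENNReal.ofReal (C * Real.sqrt r ^ 45) := by
  obtain ⟨M, hM1, hM⟩ := wordLength_lower hS hgen
  obtain ⟨κ, hκ, hμ⟩ := haar_eq' μ
  have hM0 : 0 < M := lt_of_lt_of_le one_pos hM1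
  refine ⟨κ * Real.sqrt (4 * M) ^ 45, by positivity, fun r hr => ?_⟩
  have hr0 : 0 < r := lt_of_lt_of_le one_pos hr
  set ρ : ℝ := Real.sqrt (4 * M) * Real.sqrt r with hρdef
  have hρ2 : ρ ^ 2 = 4 * M * r := by
    rw [hρdef, mul_pow, Real.sq_sqrt (by positivity), Real.sq_sqrt hr0.le]
  have hρ0 : 0 < ρ := by positivity
  have hρ1 : 1 ≤ ρ := by
    by_contra hcon
    rw [not_le] at hcon
    have h1 : ρ ^ 2 < 1 := by nlinarith
    nlinarith
  set p := parG ρ (lt_of_lt_of_le one_pos hρ1) with hp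
  have hsys : ENNReal.ofReal r ≤ systole S p.lat := by
    refine le_systole ?_
    rintro x ⟨g, hg, rfl⟩ hx
    have hne : g ≠ 1 := by
      rintro rfl
      exact hx (map_one _)
    have h1 := hM (p.fn g) (ρ ^ 2 / 4) (by positivity) (parG_big hρ1 hg hne)
    have h2 : ρ ^ 2 / 4 = M * r := by rw [hρ2]; ring
    rw [h2] at h1
    exact le_of_mul_le_mul_left h1 hM0
  have h1 : sysGrowth μ S r ≤ covolume p.lat N10 μ := iInf₂_le p.lat ⟨isLattice_lat p μ, hsys⟩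
  refine h1.trans ?_
  rw [covolume_lat]
  rw [hμ, covol_lat p hκ]
  refine le_of_eq ?_
  rw [hp, det_parG, hρdef, mul_pow, mul_assoc]

/-- the parameters for sublattices of the integer lattice -/
def parN (n : ℕ) (hn : 0 < n) : Par where
  σ := n
  τ := n
  ε := n
  α := (n : ℝ) ^ 4
  l := n
  θ := 0
  hσ := by exact_mod_cast hn
  hτ := by exact_mod_cast hn
  hε := by exact_mod_cast hn
  hα := by
    have : (0 : ℝ) < n := by exact_mod_cast hn
    positivity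
  hl := by exact_mod_cast hn
  rel := by ring

lemma det_parN (n : ℕ) (hn : 0 < n) : LinearMap.det (parN n hn).lin = (n : ℝ) ^ 24 := by
  rw [Par.det_lin]
  simp only [parN]
  ring

lemma parN_le (n : ℕ) (hn : 0 < n) : (parN n hn).lat ≤ Gam := by
  rintro x ⟨g, hg, rfl⟩
  have h : (n : ℝ) ∈ ZR := natCast_mem ZR n
  intro i
  fin_cases i
  · exact mul_mem h (hg 0)
  · exact mul_mem h (hg 1)
  · exact mul_mem h (hg 2)
  · exact add_mem (mul_mem (pow_mem h 4) (hg 3)) (mul_mem (zero_mem ZR) (hg 2))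
  · exact mul_mem (mul_mem h h) (hg 4)
  · exact mul_mem h (hg 5)
  · exact mul_mem (mul_mem h h) (hg 6)
  · exact mul_mem (mul_mem h (pow_mem h 2)) (hg 7)
  · exact mul_mem (mul_mem h (pow_mem h 3)) (hg 8)
  · exact add_mem (mul_mem (mul_mem h (pow_mem h 4)) (hg 9))
      (mul_mem (mul_mem h (zero_mem ZR)) (hg 4))

lemma parN_big {n : ℕ} (hn : 0 < n) {g : N10} (hg : g ∈ Gam) (hne : g ≠ 1) :
    ∃ i, (n : ℝ) ^ wt i ≤ |(parN n hn).fn g i| := by
  have hn1 : (1 : ℝ) ≤ n := by exact_mod_cast hn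
  have hn0 : (0 : ℝ) < n := lt_of_lt_of_le one_pos hn1
  set p := parN n hn with hp
  have key : ∀ (i : Fin 10) (c : ℝ), 0 < c → (n : ℝ) ^ wt i ≤ c → p.fn g i = c * g i → g i ≠ 0 →
      (n : ℝ) ^ wt i ≤ |p.fn g i| := by
    intro i c hc hle he hgi
    rw [he, abs_mul, abs_of_pos hc]
    have h1 : 1 ≤ |g i| := ZR_one_le (hg i) hgi
    calc (n : ℝ) ^ wt i ≤ c := hle
      _ = c * 1 := (mul_one c).symm
      _ ≤ c * |g i| := by gcongr
  by_cases h0 : g 0 = 0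
  swap
  · exact ⟨0, key 0 n hn0 (by rw [wt_0, pow_one]) rfl h0⟩
  by_cases h1 : g 1 = 0
  swap
  · exact ⟨1, key 1 n hn0 (by rw [wt_1, pow_one]) rfl h1⟩
  by_cases h2 : g 2 = 0
  swap
  · exact ⟨2, key 2 n hn0 (by rw [wt_2, pow_one]) rfl h2⟩
  by_cases h3 : g 3 = 0
  swap
  · refine ⟨3, key 3 ((n : ℝ) ^ 4) (by positivity)
      (by rw [wt_3]; exact pow_le_pow_right₀ hn1 (by norm_num)) ?_ h3⟩
    rw [fn_3, h2, mul_zero, add_zero]
    rfl
  by_cases h4 : g 4 = 0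
  swap
  · refine ⟨4, key 4 ((n : ℝ) ^ 2) (by positivity) (by rw [wt_4]) ?_ h4⟩
    rw [fn_4]
    simp only [hp, parN]
    ring
  by_cases h5 : g 5 = 0
  swap
  · exact ⟨5, key 5 n hn0 (by rw [wt_5, pow_one]) rfl h5⟩
  by_cases h6 : g 6 = 0
  swap
  · refine ⟨6, key 6 ((n : ℝ) ^ 2) (by positivity) (by rw [wt_6]) ?_ h6⟩
    rw [fn_6]
    simp only [hp, parN]
    ring
  by_cases h7 : g 7 = 0
  swap
  · refine ⟨7, key 7 ((n : ℝ) ^ 3) (by positivity) (by rw [wt_7]) ?_ h7⟩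
    rw [fn_7]
    simp only [hp, parN]
    ring
  by_cases h8 : g 8 = 0
  swap
  · refine ⟨8, key 8 ((n : ℝ) ^ 4) (by positivity) (by rw [wt_8]) ?_ h8⟩
    rw [fn_8]
    simp only [hp, parN]
    ring
  by_cases h9 : g 9 = 0
  swap
  · refine ⟨9, key 9 ((n : ℝ) ^ 5) (by positivity) (by rw [wt_9]) ?_ h9⟩
    rw [fn_9, h4]
    simp only [hp, parN]
    ring
  exact absurd (ext10 h0 h1 h2 h3 h4 h5 h6 h7 h8 h9) hne

theorem upper_bound_in (μ : Measure N10) [μ.IsHaarMeasure] {S : Set N10} (hS : IsCompact S)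
    (hgen : Subgroup.closure S = ⊤) :
    ∃ C : ℝ, 0 < C ∧ ∀ r : ℝ, 1 ≤ r →
      sysGrowthIn μ S Gam r ≤ ENNReal.ofReal (C * r ^ 24) := by
  obtain ⟨M, hM1, hM⟩ := wordLength_lower hS hgen
  obtain ⟨κ, hκ, hμ⟩ := haar_eq' μ
  have hM0 : 0 < M := lt_of_lt_of_le one_pos hM1
  refine ⟨κ * (2 * M) ^ 24, by positivity, fun r hr => ?_⟩
  have hr0 : 0 < r := lt_of_lt_of_le one_pos hr
  set n : ℕ := ⌈M * r⌉₊ with hn
  have hMr : 1 ≤ M * r := by nlinarith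
  have hn1 : M * r ≤ n := Nat.le_ceil _
  have hn2 : (n : ℝ) ≤ 2 * M * r := by
    have := Nat.ceil_lt_add_one (by positivity : 0 ≤ M * r)
    linarith
  have hn0 : 0 < n := by
    have : (0 : ℝ) < n := by linarith
    exact_mod_cast this
  set p := parN n hn0 with hp
  have hsys : ENNReal.ofReal r ≤ systole S p.lat := by
    refine le_systole ?_
    rintro x ⟨g, hg, rfl⟩ hx
    have hne : g ≠ 1 := by
      rintro rfl
      exact hx (map_one _)
    have h1 := hM (p.fn g) n (by positivity) (parN_big hn0 hg hne)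
    exact le_of_mul_le_mul_left (hn1.trans h1) hM0
  have h1 : sysGrowthIn μ S Gam r ≤ covolume p.lat N10 μ :=
    iInf₂_le p.lat ⟨parN_le n hn0, isLattice_lat p μ, hsys⟩
  refine h1.trans ?_
  rw [covolume_lat]
  rw [hμ, covol_lat p hκ]
  refine ENNReal.ofReal_le_ofReal ?_
  rw [hp, det_parN]
  calc κ * (n : ℝ) ^ 24 ≤ κ * (2 * M * r) ^ 24 := by gcongr
    _ = κ * (2 * M) ^ 24 * r ^ 24 := by rw [mul_pow, mul_assoc]

lemma isLattice_Gam (μ : Measure N10) [μ.IsHaarMeasure] : IsLattice μ Gam := by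
  refine ⟨discrete_Gam, box fun _ => 1, IsFundamentalDomain.mk'
    (measurableSet_box _).nullMeasurableSet fun x => ?_, ?_⟩
  · obtain ⟨g, hg, hgb⟩ := Gam_box_exists x
    refine ⟨⟨g, hg⟩, hgb, ?_⟩
    rintro ⟨l, hl⟩ hlb
    have h1 : l * g⁻¹ = 1 := by
      refine Gam_box_unique (Gam.mul_mem hl (Gam.inv_mem hg)) hgb ?_
      rw [mul_assoc, inv_mul_cancel_left]
      exact hlb
    exact Subtype.ext (mul_inv_eq_one.1 h1)
  · obtain ⟨κ, hκ, hμ⟩ := haar_eq' μ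
    rw [hμ, Measure.smul_apply, volume_box (fun _ => zero_le_one), smul_eq_mul]
    exact ENNReal.mul_lt_top ENNReal.ofReal_lt_top ENNReal.ofReal_lt_top

theorem not_dominated (μ : Measure N10) [μ.IsHaarMeasure] {S : Set N10} (hS : IsCompact S)
    (hgen : Subgroup.closure S = ⊤) : ¬ Dominated (sysGrowthIn μ S Gam) (sysGrowth μ S) := by
  rintro ⟨C, C', C'', hC, hC', hC'', h⟩
  obtain ⟨c, hc, hlow⟩ := lower_bound μ hS hgen
  obtain ⟨D, hD, hup⟩ := upper_bound μ hS hgen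
  -- choose r = x ^ 2 with x large
  obtain ⟨A, hA⟩ : ∃ A : ℝ, A = C * (D * Real.sqrt C' ^ 45) := ⟨_, rfl⟩
  have hA0 : 0 < A := by rw [hA]; positivity
  obtain ⟨x, hx⟩ : ∃ x : ℝ, x = 1 + (A + C'') / c + 1 / C' := ⟨_, rfl⟩
  have hq1 : 0 < (A + C'') / c := by positivity
  have hq2 : 0 < 1 / C' := by positivity
  have hx1 : 1 ≤ x := by linarith
  have hx0 : 0 < x := by linarith
  have hxc : A + C'' < c * x := by
    have : (A + C'') / c < x := by linarith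
    rw [div_lt_iff₀ hc] at this
    linarith
  have hxC : 1 ≤ C' * x ^ 2 := by
    have h1 : 1 / C' ≤ x := by linarith
    rw [div_le_iff₀ hC'] at h1
    nlinarith
  have h1 := h (x ^ 2) (by positivity)
  have h2 := hlow (x ^ 2) (by positivity)
  have h3 := hup (C' * x ^ 2) hxC
  have h4 : Real.sqrt (C' * x ^ 2) = Real.sqrt C' * x := by
    rw [Real.sqrt_mul hC'.le, Real.sqrt_sq hx0.le]
  rw [h4] at h3
  have h5 : ENNReal.ofReal (c * (x ^ 2) ^ 23) ≤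
      ENNReal.ofReal (C * (D * (Real.sqrt C' * x) ^ 45) + C'') := by
    rw [ENNReal.ofReal_add (by positivity) hC''.le, ENNReal.ofReal_mul hC.le]
    refine (h2.trans h1).trans ?_
    gcongr
  rw [ENNReal.ofReal_le_ofReal_iff (by positivity)] at h5
  have h6 : C * (D * (Real.sqrt C' * x) ^ 45) = A * x ^ 45 := by
    rw [hA, mul_pow, mul_assoc C, mul_assoc D]
  have h7 : c * (x ^ 2) ^ 23 = c * x * x ^ 45 := by
    rw [← pow_mul, mul_assoc, ← pow_succ']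
  rw [h6, h7] at h5
  have h8 : 1 ≤ x ^ 45 := one_le_pow₀ hx1
  nlinarith

end N10

end Pool.Agent.Systolic
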