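import Mathlib

/-!
Definitions for the systolic growth of Lie groups and of their lattices (problem MP_bf6ff4_al).
-/

open MeasureTheory Set
open scoped ENNReal

namespace Pool.Agent.Systolic

variable {G : Type} [Group G]

/-- Word length of `g` with respect to `S`: the least length of a word in elements of `S` and
inverses of elements of `S` that represents `g`. -/
noncomputable def wordLength (S : Set G) (g : G) : ℕ :=
  sInf {n : ℕ | ∃ l : List G, l.length = n ∧ (∀ x ∈ l, x ∈ S ∨ x⁻¹ ∈ S) ∧ l.prod = g}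

/-- The systole of a subgroup `X`: the infimum of the word lengths of its nontrivial elements. -/
noncomputable def systole (S : Set G) (X : Subgroup G) : ℝ≥0∞ :=
  ⨅ x : G, ⨅ _ : x ∈ X ∧ x ≠ 1, (wordLength S x : ℝ≥0∞)

/-- Lattices: discrete subgroups with a fundamental domain of finite measure. -/
def IsLattice [TopologicalSpace G] [MeasurableSpace G] (μ : Measure G) (Λ : Subgroup G) : Prop :=
  DiscreteTopology Λ ∧ ∃ F : Set G, IsFundamentalDomain Λ F μ ∧ μ F < ∞

/-- The systolic growth of `G`: the infimum of the covolumes of the lattices in `G` with systole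
at least `r`. -/
noncomputable def sysGrowth [TopologicalSpace G] [MeasurableSpace G] (μ : Measure G) (S : Set G)
    (r : ℝ) : ℝ≥0∞ :=
  ⨅ Λ : Subgroup G, ⨅ _ : IsLattice μ Λ ∧ ENNReal.ofReal r ≤ systole S Λ, covolume Λ G μ

/-- The systolic growth of `Γ`: the same infimum over the lattices contained in `Γ`. -/
noncomputable def sysGrowthIn [TopologicalSpace G] [MeasurableSpace G] (μ : Measure G) (S : Set G)
    (Γ : Subgroup G) (r : ℝ) : ℝ≥0∞ :=
  ⨅ Λ : Subgroup G, ⨅ _ : Λ ≤ Γ ∧ IsLattice μ Λ ∧ ENNReal.ofReal r ≤ systole S Λ,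
    covolume Λ G μ

/-- `f ⪯ g`: there are positive constants with `f(r) ≤ C g(C' r) + C''` for all `r`. -/
def Dominated (f g : ℝ → ℝ≥0∞) : Prop :=
  ∃ C C' C'' : ℝ, 0 < C ∧ 0 < C' ∧ 0 < C'' ∧ ∀ r : ℝ, 0 < r →
    f r ≤ ENNReal.ofReal C * g (C' * r) + ENNReal.ofReal C''

end Pool.Agent.Systolic
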