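import Pool.Agent.Work.MP_bf6ff4_al.Defs

/-!
The group: `ℝ^2` acting on `ℝ^8`. Coordinates `0 = s`, `1 = t`, `2 = e`, `3 = a`, `4 = u`,
`5,...,9` = coefficients of `z^4, z^3, z^2, z, 1` of a polynomial `f`. The product of
`(s,t,e,a,u,f)` and `(s',t',e',a',u',f')` is
`(s + s', t + t', e + e', a + a', u + u' + t e', f + f'(z + s) + t a')`.
-/

open MeasureTheory Set
open scoped ENNReal Manifold ContDiff

namespace Pool.Agent.Systolic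

/-- the underlying space -/
abbrev V10 : Type := Fin 10 → ℝ

/-- the group `ℝ^2 ⋉ ℝ^8` -/
def N10 : Type := Fin 10 → ℝ

namespace N10

instance : TopologicalSpace N10 := inferInstanceAs (TopologicalSpace V10)
instance : T2Space N10 := inferInstanceAs (T2Space V10)
instance : SecondCountableTopology N10 := inferInstanceAs (SecondCountableTopology V10)
instance : LocallyCompactSpace N10 := inferInstanceAs (LocallyCompactSpace V10)
noncomputable instance : MeasureSpace N10 := inferInstanceAs (MeasureSpace V10)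
instance : BorelSpace N10 := inferInstanceAs (BorelSpace V10)
instance : ChartedSpace V10 N10 := inferInstanceAs (ChartedSpace V10 V10)

/-- the product -/
def mul' (g h : V10) : V10 :=
  ![g 0 + h 0, g 1 + h 1, g 2 + h 2, g 3 + h 3, g 4 + h 4 + g 1 * h 2,
    g 5 + h 5,
    g 6 + (h 6 + 4 * g 0 * h 5),
    g 7 + (h 7 + 3 * g 0 * h 6 + 6 * g 0 ^ 2 * h 5),
    g 8 + (h 8 + 2 * g 0 * h 7 + 3 * g 0 ^ 2 * h 6 + 4 * g 0 ^ 3 * h 5),
    g 9 + (h 9 + g 0 * h 8 + g 0 ^ 2 * h 7 + g 0 ^ 3 * h 6 + g 0 ^ 4 * h 5) + g 1 * h 3]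

/-- the inverse -/
def inv' (g : V10) : V10 :=
  ![-g 0, -g 1, -g 2, -g 3, -g 4 + g 1 * g 2,
    -g 5,
    -(g 6 - 4 * g 0 * g 5),
    -(g 7 - 3 * g 0 * g 6 + 6 * g 0 ^ 2 * g 5),
    -(g 8 - 2 * g 0 * g 7 + 3 * g 0 ^ 2 * g 6 - 4 * g 0 ^ 3 * g 5),
    -(g 9 - g 0 * g 8 + g 0 ^ 2 * g 7 - g 0 ^ 3 * g 6 + g 0 ^ 4 * g 5) + g 1 * g 3]

instance : Mul N10 := ⟨fun g h => mul' g h⟩
instance : One N10 := ⟨fun _ => (0 : ℝ)⟩
instance : Inv N10 := ⟨fun g => inv' g⟩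

section coords
variable (g h : N10)

@[simp] lemma mul_0 : (g * h) 0 = g 0 + h 0 := rfl
@[simp] lemma mul_1 : (g * h) 1 = g 1 + h 1 := rfl
@[simp] lemma mul_2 : (g * h) 2 = g 2 + h 2 := rfl
@[simp] lemma mul_3 : (g * h) 3 = g 3 + h 3 := rfl
@[simp] lemma mul_4 : (g * h) 4 = g 4 + h 4 + g 1 * h 2 := rfl
@[simp] lemma mul_5 : (g * h) 5 = g 5 + h 5 := rfl
@[simp] lemma mul_6 : (g * h) 6 = g 6 + (h 6 + 4 * g 0 * h 5) := rfl
@[simp] lemma mul_7 : (g * h) 7 = g 7 + (h 7 + 3 * g 0 * h 6 + 6 * g 0 ^ 2 * h 5) := rfl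
@[simp] lemma mul_8 : (g * h) 8 =
  g 8 + (h 8 + 2 * g 0 * h 7 + 3 * g 0 ^ 2 * h 6 + 4 * g 0 ^ 3 * h 5) := rfl
@[simp] lemma mul_9 : (g * h) 9 =
  g 9 + (h 9 + g 0 * h 8 + g 0 ^ 2 * h 7 + g 0 ^ 3 * h 6 + g 0 ^ 4 * h 5) + g 1 * h 3 := rfl

@[simp] lemma inv_0 : (g⁻¹) 0 = -g 0 := rfl
@[simp] lemma inv_1 : (g⁻¹) 1 = -g 1 := rfl
@[simp] lemma inv_2 : (g⁻¹) 2 = -g 2 := rfl
@[simp] lemma inv_3 : (g⁻¹) 3 = -g 3 := rfl
@[simp] lemma inv_4 : (g⁻¹) 4 = -g 4 + g 1 * g 2 := rfl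
@[simp] lemma inv_5 : (g⁻¹) 5 = -g 5 := rfl
@[simp] lemma inv_6 : (g⁻¹) 6 = -(g 6 - 4 * g 0 * g 5) := rfl
@[simp] lemma inv_7 : (g⁻¹) 7 = -(g 7 - 3 * g 0 * g 6 + 6 * g 0 ^ 2 * g 5) := rfl
@[simp] lemma inv_8 : (g⁻¹) 8 =
  -(g 8 - 2 * g 0 * g 7 + 3 * g 0 ^ 2 * g 6 - 4 * g 0 ^ 3 * g 5) := rfl
@[simp] lemma inv_9 : (g⁻¹) 9 =
  -(g 9 - g 0 * g 8 + g 0 ^ 2 * g 7 - g 0 ^ 3 * g 6 + g 0 ^ 4 * g 5) + g 1 * g 3 := rfl

@[simp] lemma one_apply (i : Fin 10) : (1 : N10) i = 0 := rfl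

lemma ext10 {g h : N10} (h0 : g 0 = h 0) (h1 : g 1 = h 1) (h2 : g 2 = h 2) (h3 : g 3 = h 3)
    (h4 : g 4 = h 4) (h5 : g 5 = h 5) (h6 : g 6 = h 6) (h7 : g 7 = h 7) (h8 : g 8 = h 8)
    (h9 : g 9 = h 9) : g = h := by
  funext i
  fin_cases i <;> assumption

end coords

instance : Group N10 where
  mul_assoc g h k := by
    refine ext10 ?_ ?_ ?_ ?_ ?_ ?_ ?_ ?_ ?_ ?_ <;> simp <;> ring
  one_mul g := by
    refine ext10 ?_ ?_ ?_ ?_ ?_ ?_ ?_ ?_ ?_ ?_ <;> simp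
  mul_one g := by
    refine ext10 ?_ ?_ ?_ ?_ ?_ ?_ ?_ ?_ ?_ ?_ <;> simp
  inv_mul_cancel g := by
    refine ext10 ?_ ?_ ?_ ?_ ?_ ?_ ?_ ?_ ?_ ?_ <;> simp <;> ring

lemma contDiff_mul' {n : WithTop ℕ∞} : ContDiff ℝ n (fun p : V10 × V10 => mul' p.1 p.2) := by
  rw [contDiff_pi]
  intro i
  have h1 : ∀ j : Fin 10, ContDiff ℝ n (fun p : V10 × V10 => p.1 j) := fun j =>
    (contDiff_apply ℝ ℝ j).comp contDiff_fst
  have h2 : ∀ j : Fin 10, ContDiff ℝ n (fun p : V10 × V10 => p.2 j) := fun j =>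
    (contDiff_apply ℝ ℝ j).comp contDiff_snd
  fin_cases i
  · exact (h1 0).add (h2 0)
  · exact (h1 1).add (h2 1)
  · exact (h1 2).add (h2 2)
  · exact (h1 3).add (h2 3)
  · exact ((h1 4).add (h2 4)).add ((h1 1).mul (h2 2))
  · exact (h1 5).add (h2 5)
  · exact (h1 6).add ((h2 6).add ((contDiff_const.mul (h1 0)).mul (h2 5)))
  · exact (h1 7).add (((h2 7).add ((contDiff_const.mul (h1 0)).mul (h2 6))).add
      ((contDiff_const.mul ((h1 0).pow 2)).mul (h2 5)))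
  · exact (h1 8).add ((((h2 8).add ((contDiff_const.mul (h1 0)).mul (h2 7))).add
      ((contDiff_const.mul ((h1 0).pow 2)).mul (h2 6))).add
      ((contDiff_const.mul ((h1 0).pow 3)).mul (h2 5)))
  · exact ((h1 9).add (((((h2 9).add ((h1 0).mul (h2 8))).add (((h1 0).pow 2).mul (h2 7))).add
      (((h1 0).pow 3).mul (h2 6))).add (((h1 0).pow 4).mul (h2 5)))).add ((h1 1).mul (h2 3))

lemma contDiff_inv' {n : WithTop ℕ∞} : ContDiff ℝ n inv' := by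
  rw [contDiff_pi]
  intro i
  have h1 : ∀ j : Fin 10, ContDiff ℝ n (fun p : V10 => p j) := fun j =>
    contDiff_apply ℝ ℝ j
  fin_cases i
  · exact (h1 0).neg
  · exact (h1 1).neg
  · exact (h1 2).neg
  · exact (h1 3).neg
  · exact (h1 4).neg.add ((h1 1).mul (h1 2))
  · exact (h1 5).neg
  · exact ((h1 6).sub ((contDiff_const.mul (h1 0)).mul (h1 5))).neg
  · exact (((h1 7).sub ((contDiff_const.mul (h1 0)).mul (h1 6))).add
      ((contDiff_const.mul ((h1 0).pow 2)).mul (h1 5))).neg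
  · exact ((((h1 8).sub ((contDiff_const.mul (h1 0)).mul (h1 7))).add
      ((contDiff_const.mul ((h1 0).pow 2)).mul (h1 6))).sub
      ((contDiff_const.mul ((h1 0).pow 3)).mul (h1 5))).neg
  · exact ((((((h1 9).sub ((h1 0).mul (h1 8))).add (((h1 0).pow 2).mul (h1 7))).sub
      (((h1 0).pow 3).mul (h1 6))).add (((h1 0).pow 4).mul (h1 5))).neg).add ((h1 1).mul (h1 3))

instance lieGroup : LieGroup 𝓘(ℝ, V10) ω N10 where
  __ := (inferInstance : IsManifold 𝓘(ℝ, V10) ω V10)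
  contMDiff_mul := by
    have := (contDiff_mul' (n := ω)).contMDiff
    rw [modelWithCornersSelf_prod, ← chartedSpaceSelf_prod] at this
    exact this
  contMDiff_inv := (contDiff_inv' (n := ω)).contMDiff

instance : IsTopologicalGroup N10 := topologicalGroup_of_lieGroup 𝓘(ℝ, V10) ω

instance : SimplyConnectedSpace N10 := inferInstanceAs (SimplyConnectedSpace V10)

/-- weights of the coordinates -/
def wt : Fin 10 → ℕ := ![1, 1, 1, 1, 2, 1, 2, 3, 4, 5]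

@[simp] lemma wt_0 : wt 0 = 1 := rfl
@[simp] lemma wt_1 : wt 1 = 1 := rfl
@[simp] lemma wt_2 : wt 2 = 1 := rfl
@[simp] lemma wt_3 : wt 3 = 1 := rfl
@[simp] lemma wt_4 : wt 4 = 2 := rfl
@[simp] lemma wt_5 : wt 5 = 1 := rfl
@[simp] lemma wt_6 : wt 6 = 2 := rfl
@[simp] lemma wt_7 : wt 7 = 3 := rfl
@[simp] lemma wt_8 : wt 8 = 4 := rfl
@[simp] lemma wt_9 : wt 9 = 5 := rfl

end N10

end Pool.Agent.Systolic
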