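import Pool.Agent.Work.MP_bf6ff4_al.Meas

/-!
The integer lattice, a family of automorphisms, and the image lattices.
-/

open MeasureTheory Set
open scoped ENNReal

namespace Pool.Agent.Systolic

/-- the integers inside the reals -/
def ZR : Subring ℝ := (Int.castRingHom ℝ).range

lemma ZR_int (n : ℤ) : (n : ℝ) ∈ ZR := ⟨n, rfl⟩

lemma ZR_eq_zero {x : ℝ} (hx : x ∈ ZR) (h : |x| < 1) : x = 0 := by
  obtain ⟨n, rfl⟩ := hx
  have h1 : |(n : ℝ)| < 1 := h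
  have h2 : |n| < 1 := by exact_mod_cast h1
  have h3 : n = 0 := Int.abs_lt_one_iff.1 h2
  simp [h3]

lemma ZR_one_le {x : ℝ} (hx : x ∈ ZR) (h : x ≠ 0) : 1 ≤ |x| := by
  by_contra hcon
  exact h (ZR_eq_zero hx (not_le.1 hcon))

namespace N10

/-- the integer points -/
def Gam : Subgroup N10 where
  carrier := {g | ∀ i, g i ∈ ZR}
  one_mem' := fun i => by rw [one_apply]; exact ZR.zero_mem
  mul_mem' := by
    intro g h hg hh i
    have n2 : (2 : ℝ) ∈ ZR := ofNat_mem ZR 2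
    have n3 : (3 : ℝ) ∈ ZR := ofNat_mem ZR 3
    have n4 : (4 : ℝ) ∈ ZR := ofNat_mem ZR 4
    have n6 : (6 : ℝ) ∈ ZR := ofNat_mem ZR 6
    fin_cases i
    · exact add_mem (hg 0) (hh 0)
    · exact add_mem (hg 1) (hh 1)
    · exact add_mem (hg 2) (hh 2)
    · exact add_mem (hg 3) (hh 3)
    · exact add_mem (add_mem (hg 4) (hh 4)) (mul_mem (hg 1) (hh 2))
    · exact add_mem (hg 5) (hh 5)
    · exact add_mem (hg 6) (add_mem (hh 6) (mul_mem (mul_mem n4 (hg 0)) (hh 5)))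
    · exact add_mem (hg 7) (add_mem (add_mem (hh 7) (mul_mem (mul_mem n3 (hg 0)) (hh 6)))
        (mul_mem (mul_mem n6 (pow_mem (hg 0) 2)) (hh 5)))
    · exact add_mem (hg 8) (add_mem (add_mem (add_mem (hh 8)
        (mul_mem (mul_mem n2 (hg 0)) (hh 7))) (mul_mem (mul_mem n3 (pow_mem (hg 0) 2)) (hh 6)))
        (mul_mem (mul_mem n4 (pow_mem (hg 0) 3)) (hh 5)))
    · exact add_mem (add_mem (hg 9) (add_mem (add_mem (add_mem (add_mem (hh 9)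
        (mul_mem (hg 0) (hh 8))) (mul_mem (pow_mem (hg 0) 2) (hh 7)))
        (mul_mem (pow_mem (hg 0) 3) (hh 6))) (mul_mem (pow_mem (hg 0) 4) (hh 5))))
        (mul_mem (hg 1) (hh 3))
  inv_mem' := by
    intro g hg i
    have n2 : (2 : ℝ) ∈ ZR := ofNat_mem ZR 2
    have n3 : (3 : ℝ) ∈ ZR := ofNat_mem ZR 3
    have n4 : (4 : ℝ) ∈ ZR := ofNat_mem ZR 4
    have n6 : (6 : ℝ) ∈ ZR := ofNat_mem ZR 6
    fin_cases i
    · exact neg_mem (hg 0)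
    · exact neg_mem (hg 1)
    · exact neg_mem (hg 2)
    · exact neg_mem (hg 3)
    · exact add_mem (neg_mem (hg 4)) (mul_mem (hg 1) (hg 2))
    · exact neg_mem (hg 5)
    · exact neg_mem (sub_mem (hg 6) (mul_mem (mul_mem n4 (hg 0)) (hg 5)))
    · exact neg_mem (add_mem (sub_mem (hg 7) (mul_mem (mul_mem n3 (hg 0)) (hg 6)))
        (mul_mem (mul_mem n6 (pow_mem (hg 0) 2)) (hg 5)))
    · exact neg_mem (sub_mem (add_mem (sub_mem (hg 8)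
        (mul_mem (mul_mem n2 (hg 0)) (hg 7))) (mul_mem (mul_mem n3 (pow_mem (hg 0) 2)) (hg 6)))
        (mul_mem (mul_mem n4 (pow_mem (hg 0) 3)) (hg 5)))
    · exact add_mem (neg_mem (add_mem (sub_mem (add_mem (sub_mem (hg 9)
        (mul_mem (hg 0) (hg 8))) (mul_mem (pow_mem (hg 0) 2) (hg 7)))
        (mul_mem (pow_mem (hg 0) 3) (hg 6))) (mul_mem (pow_mem (hg 0) 4) (hg 5))))
        (mul_mem (hg 1) (hg 3))

lemma mem_Gam {g : N10} : g ∈ Gam ↔ ∀ i, g i ∈ ZR := Iff.rfl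

/-- boxes -/
def box (b : Fin 10 → ℝ) : Set N10 := {g | ∀ i, 0 ≤ g i ∧ g i < b i}

lemma box_eq (b : Fin 10 → ℝ) : box b = (Set.pi univ fun i => Set.Ico 0 (b i)) := by
  refine Set.Subset.antisymm (fun g hg i _ => hg i) (fun g hg i => hg i (Set.mem_univ i))

lemma measurableSet_box (b : Fin 10 → ℝ) : MeasurableSet (box b) := by
  rw [box_eq]
  exact MeasurableSet.univ_pi fun i => measurableSet_Ico

lemma volume_box {b : Fin 10 → ℝ} (hb : ∀ i, 0 ≤ b i) :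
    (volume : Measure N10) (box b) = ENNReal.ofReal (∏ i, b i) := by
  rw [box_eq]
  have h1 := Real.volume_pi_Ico (a := fun _ : Fin 10 => (0 : ℝ)) (b := b)
  have h2 : (volume : Measure N10) (Set.pi univ fun i => Set.Ico 0 (b i)) =
      (volume : Measure V10) (Set.pi univ fun i => Set.Ico 0 (b i)) := rfl
  rw [h2, h1, ENNReal.ofReal_prod_of_nonneg (fun i _ => hb i)]
  simp

lemma box_diff {b : Fin 10 → ℝ} {l g : N10} (hg : g ∈ box b) (h : l * g ∈ box b) :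
    |l 0| < b 0 ∧ |l 1| < b 1 ∧ |l 2| < b 2 ∧ |l 3| < b 3 ∧ |l 5| < b 5 ∧
      (l 1 = 0 → |l 4| < b 4) ∧ (l 0 = 0 → |l 6| < b 6) ∧ (l 0 = 0 → |l 7| < b 7) ∧
      (l 0 = 0 → |l 8| < b 8) ∧ (l 0 = 0 → l 1 = 0 → |l 9| < b 9) := by
  have key : ∀ i (x : ℝ), (l * g) i = x + g i → |x| < b i := by
    intro i x hx
    have h1 := hg i
    have h2 := h i
    rw [hx] at h2
    rw [abs_lt]
    constructor <;> linarith [h1.1, h1.2, h2.1, h2.2]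
  refine ⟨key 0 _ (mul_0 l g), key 1 _ (mul_1 l g), key 2 _ (mul_2 l g), key 3 _ (mul_3 l g),
    key 5 _ (mul_5 l g), fun h1 => key 4 _ ?_, fun h0 => key 6 _ ?_, fun h0 => key 7 _ ?_,
    fun h0 => key 8 _ ?_, fun h0 h1 => key 9 _ ?_⟩
  · rw [mul_4, h1]; ring
  · rw [mul_6, h0]; ring
  · rw [mul_7, h0]; ring
  · rw [mul_8, h0]; ring
  · rw [mul_9, h0, h1]; ring

lemma Gam_box_unique {l g : N10} (hl : l ∈ Gam) (hg : g ∈ box fun _ => 1)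
    (h : l * g ∈ box fun _ => 1) : l = 1 := by
  obtain ⟨h0, h1, h2, h3, h5, h4, h6, h7, h8, h9⟩ := box_diff hg h
  have z0 := ZR_eq_zero (hl 0) h0
  have z1 := ZR_eq_zero (hl 1) h1
  exact ext10 z0 z1 (ZR_eq_zero (hl 2) h2) (ZR_eq_zero (hl 3) h3) (ZR_eq_zero (hl 4) (h4 z1))
    (ZR_eq_zero (hl 5) h5) (ZR_eq_zero (hl 6) (h6 z0)) (ZR_eq_zero (hl 7) (h7 z0))
    (ZR_eq_zero (hl 8) (h8 z0)) (ZR_eq_zero (hl 9) (h9 z0 z1))

lemma Gam_box_exists (y : N10) : ∃ l ∈ Gam, l * y ∈ box fun _ => 1 := by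
  have fr : ∀ x : ℝ, 0 ≤ ((-⌊x⌋ : ℤ) : ℝ) + x ∧ ((-⌊x⌋ : ℤ) : ℝ) + x < 1 := by
    intro x
    push_cast
    constructor
    · linarith [Int.floor_le x]
    · linarith [Int.lt_floor_add_one x]
  set n0 : ℤ := -⌊y 0⌋ with hn0
  set n1 : ℤ := -⌊y 1⌋ with hn1
  set n2 : ℤ := -⌊y 2⌋ with hn2
  set n3 : ℤ := -⌊y 3⌋ with hn3
  set n4 : ℤ := -⌊y 4 + n1 * y 2⌋ with hn4
  set n5 : ℤ := -⌊y 5⌋ with hn5
  set n6 : ℤ := -⌊y 6 + 4 * n0 * y 5⌋ with hn6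
  set n7 : ℤ := -⌊y 7 + 3 * n0 * y 6 + 6 * n0 ^ 2 * y 5⌋ with hn7
  set n8 : ℤ := -⌊y 8 + 2 * n0 * y 7 + 3 * n0 ^ 2 * y 6 + 4 * n0 ^ 3 * y 5⌋ with hn8
  set n9 : ℤ := -⌊y 9 + n0 * y 8 + n0 ^ 2 * y 7 + n0 ^ 3 * y 6 + n0 ^ 4 * y 5 + n1 * y 3⌋ with hn9
  let l : N10 := ![n0, n1, n2, n3, n4, n5, n6, n7, n8, n9]
  have l0 : l 0 = n0 := rfl
  have l1 : l 1 = n1 := rfl
  have l2 : l 2 = n2 := rfl
  have l3 : l 3 = n3 := rfl
  have l4 : l 4 = n4 := rfl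
  have l5 : l 5 = n5 := rfl
  have l6 : l 6 = n6 := rfl
  have l7 : l 7 = n7 := rfl
  have l8 : l 8 = n8 := rfl
  have l9 : l 9 = n9 := rfl
  refine ⟨l, ?_, ?_⟩
  · intro i
    fin_cases i
    · exact ZR_int n0
    · exact ZR_int n1
    · exact ZR_int n2
    · exact ZR_int n3
    · exact ZR_int n4
    · exact ZR_int n5
    · exact ZR_int n6
    · exact ZR_int n7
    · exact ZR_int n8
    · exact ZR_int n9
  · intro i
    fin_cases i
    · exact fr (y 0)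
    · exact fr (y 1)
    · exact fr (y 2)
    · exact fr (y 3)
    · have h := fr (y 4 + n1 * y 2)
      have e : (l * y) 4 = (n4 : ℝ) + (y 4 + n1 * y 2) := by
        rw [mul_4, l4, l1]; ring
      change 0 ≤ (l * y) 4 ∧ (l * y) 4 < 1
      rw [e]
      exact h
    · exact fr (y 5)
    · have h := fr (y 6 + 4 * n0 * y 5)
      have e : (l * y) 6 = (n6 : ℝ) + (y 6 + 4 * n0 * y 5) := by
        rw [mul_6, l6, l0]
      change 0 ≤ (l * y) 6 ∧ (l * y) 6 < 1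
      rw [e]
      exact h
    · have h := fr (y 7 + 3 * n0 * y 6 + 6 * n0 ^ 2 * y 5)
      have e : (l * y) 7 = (n7 : ℝ) + (y 7 + 3 * n0 * y 6 + 6 * n0 ^ 2 * y 5) := by
        rw [mul_7, l7, l0]
      change 0 ≤ (l * y) 7 ∧ (l * y) 7 < 1
      rw [e]
      exact h
    · have h := fr (y 8 + 2 * n0 * y 7 + 3 * n0 ^ 2 * y 6 + 4 * n0 ^ 3 * y 5)
      have e : (l * y) 8 = (n8 : ℝ) +
          (y 8 + 2 * n0 * y 7 + 3 * n0 ^ 2 * y 6 + 4 * n0 ^ 3 * y 5) := by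
        rw [mul_8, l8, l0]
      change 0 ≤ (l * y) 8 ∧ (l * y) 8 < 1
      rw [e]
      exact h
    · have h := fr (y 9 + n0 * y 8 + n0 ^ 2 * y 7 + n0 ^ 3 * y 6 + n0 ^ 4 * y 5 + n1 * y 3)
      have e : (l * y) 9 = (n9 : ℝ) +
          (y 9 + n0 * y 8 + n0 ^ 2 * y 7 + n0 ^ 3 * y 6 + n0 ^ 4 * y 5 + n1 * y 3) := by
        rw [mul_9, l9, l0, l1]; ring
      change 0 ≤ (l * y) 9 ∧ (l * y) 9 < 1
      rw [e]
      exact h

end N10

end Pool.Agent.Systolic
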