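import Pool.Agent.Work.MP_bf6ff4_al.Grp

/-!
Lebesgue measure is a Haar measure of the group; triangular linear maps.
-/

open MeasureTheory Set
open scoped ENNReal

namespace Pool.Agent.Systolic

lemma det_tri (T : V10 →ₗ[ℝ] V10) (d : Fin 10 → ℝ)
    (hT : ∀ (x : V10) (i : Fin 10), (∀ j < i, x j = 0) → T x i = d i * x i) :
    LinearMap.det T = ∏ i, d i := by
  rw [← LinearMap.det_toMatrix' T, Matrix.det_of_isLowerTriangular]
  · refine Finset.prod_congr rfl fun i _ => ?_
    rw [LinearMap.toMatrix'_apply]
    rw [hT]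
    · simp
    · intro j hj
      simp [hj.ne]
  · intro i j hij
    have hij' : i < j := hij
    rw [LinearMap.toMatrix'_apply, hT]
    · simp [hij'.ne]
    · intro k hk
      simp [(hk.trans hij').ne]

namespace N10

/-- linear part of the left translation by `g` -/
def leftLin (g : N10) : V10 →ₗ[ℝ] V10 where
  toFun x := ![x 0, x 1, x 2, x 3, x 4 + g 1 * x 2,
    x 5,
    x 6 + 4 * g 0 * x 5,
    x 7 + 3 * g 0 * x 6 + 6 * g 0 ^ 2 * x 5,
    x 8 + 2 * g 0 * x 7 + 3 * g 0 ^ 2 * x 6 + 4 * g 0 ^ 3 * x 5,
    x 9 + g 0 * x 8 + g 0 ^ 2 * x 7 + g 0 ^ 3 * x 6 + g 0 ^ 4 * x 5 + g 1 * x 3]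
  map_add' x y := by
    funext i
    fin_cases i <;> simp <;> ring
  map_smul' c x := by
    funext i
    fin_cases i <;> simp <;> ring

/-- the identity map to the underlying vector space -/
def toV (g : N10) : V10 := g

lemma mul_eq_add (g x : N10) : toV (g * x : N10) = toV g + leftLin g (toV x) := by
  refine ext10 ?_ ?_ ?_ ?_ ?_ ?_ ?_ ?_ ?_ ?_
  · rfl
  · rfl
  · rfl
  · rfl
  · change g 4 + x 4 + g 1 * x 2 = g 4 + (x 4 + g 1 * x 2)
    ring
  · rfl
  · rfl
  · rfl
  · rfl
  · change g 9 + (x 9 + g 0 * x 8 + g 0 ^ 2 * x 7 + g 0 ^ 3 * x 6 + g 0 ^ 4 * x 5) + g 1 * x 3 =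
      g 9 + (x 9 + g 0 * x 8 + g 0 ^ 2 * x 7 + g 0 ^ 3 * x 6 + g 0 ^ 4 * x 5 + g 1 * x 3)
    ring

lemma det_leftLin (g : N10) : LinearMap.det (leftLin g) = 1 := by
  rw [det_tri (leftLin g) (fun _ => 1)]
  · simp
  · intro x i hx
    fin_cases i
    · simp [leftLin]
    · simp [leftLin]
    · simp [leftLin]
    · simp [leftLin]
    · have h2 := hx 2 (by decide)
      simp [leftLin, h2]
    · simp [leftLin]
    · have h5 := hx 5 (by decide)
      simp [leftLin, h5]
    · have h5 := hx 5 (by decide)
      have h6 := hx 6 (by decide)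
      simp [leftLin, h5, h6]
    · have h5 := hx 5 (by decide)
      have h6 := hx 6 (by decide)
      have h7 := hx 7 (by decide)
      simp [leftLin, h5, h6, h7]
    · have h5 := hx 5 (by decide)
      have h6 := hx 6 (by decide)
      have h7 := hx 7 (by decide)
      have h8 := hx 8 (by decide)
      have h3 := hx 3 (by decide)
      simp [leftLin, h5, h6, h7, h8, h3]

instance : (volume : Measure N10).IsMulLeftInvariant where
  map_mul_left_eq_self g := by
    have h1 : (fun x : V10 => mul' g x) =
        (fun y : V10 => toV g + y) ∘ (leftLin g : V10 → V10) := by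
      funext x
      exact mul_eq_add g x
    have h2 : Measure.map (leftLin g) (volume : Measure V10) = volume := by
      rw [Real.map_linearMap_volume_pi_eq_smul_volume_pi (by rw [det_leftLin]; exact one_ne_zero),
        det_leftLin]
      simp
    have h3 : Measure.map (fun y : V10 => toV g + y) (volume : Measure V10) = volume :=
      MeasureTheory.map_add_left_eq_self _ _
    have h4 : Measurable (leftLin g : V10 → V10) :=
      (LinearMap.continuous_of_finiteDimensional (leftLin g)).measurable
    have h5 : Measurable (fun y : V10 => toV g + y) := measurable_const_add _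
    have h6 : Measure.map (fun x : V10 => mul' g x) (volume : Measure V10) = volume := by
      rw [h1, ← Measure.map_map h5 h4, h2, h3]
    exact h6

instance : (volume : Measure N10).IsOpenPosMeasure :=
  inferInstanceAs ((volume : Measure V10).IsOpenPosMeasure)

instance : IsFiniteMeasureOnCompacts (volume : Measure N10) :=
  inferInstanceAs (IsFiniteMeasureOnCompacts (volume : Measure V10))

instance : (volume : Measure N10).IsHaarMeasure where

lemma haar_eq (μ : Measure N10) [μ.IsHaarMeasure] :
    ∃ c : ℝ≥0∞, c ≠ 0 ∧ c ≠ ∞ ∧ μ = c • (volume : Measure N10) := by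
  refine ⟨(Measure.haarScalarFactor μ (volume : Measure N10) : ℝ≥0∞), ?_, ENNReal.coe_ne_top, ?_⟩
  · exact ENNReal.coe_ne_zero.2
      (Measure.haarScalarFactor_pos_of_isHaarMeasure μ (volume : Measure N10)).ne'
  · exact Measure.isMulLeftInvariant_eq_smul μ (volume : Measure N10)

end N10

end Pool.Agent.Systolic
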